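import Mathlib

/-! Inclusion-exclusion sums for the expected maximum of independent exponentials. -/

open Finset

namespace Pool.Agent.Q259.MaxExp

variable {ι : Type*} [DecidableEq ι]

/-- `∑_{J ⊆ s} (-1)^|J| / (c + a_J)`. -/
noncomputable def R (s : Finset ι) (a : ι → ℝ) (c : ℝ) : ℝ :=
  ∑ J ∈ s.powerset, (-1) ^ J.card * (c + ∑ j ∈ J, a j)⁻¹

/-- `∑_{J ⊆ s} (-1)^|J| / (c + a_J)²`. -/
noncomputable def R2 (s : Finset ι) (a : ι → ℝ) (c : ℝ) : ℝ :=
  ∑ J ∈ s.powerset, (-1) ^ J.card * ((c + ∑ j ∈ J, a j) ^ 2)⁻¹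

/-- `∑_{∅ ≠ J ⊆ s} (-1)^(|J|+1) / a_J`. -/
noncomputable def S (s : Finset ι) (a : ι → ℝ) : ℝ :=
  ∑ J ∈ s.powerset, (-1) ^ (J.card + 1) * (∑ j ∈ J, a j)⁻¹

theorem sum_powerset_insert' {i : ι} {s : Finset ι} (hi : i ∉ s) (f : Finset ι → ℝ) :
    ∑ J ∈ (insert i s).powerset, f J = ∑ J ∈ s.powerset, f J + ∑ J ∈ s.powerset, f (insert i J) := by
  rw [powerset_insert, sum_union, sum_image]
  · intro J hJ K hK h
    rw [Finset.mem_coe, mem_powerset] at hJ hK
    have h1 := congrArg (fun J => J.erase i) h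
    simpa [erase_insert (fun h => hi (hJ h)), erase_insert (fun h => hi (hK h))] using h1
  · rw [disjoint_left]
    intro J hJ hJ'
    rw [mem_powerset] at hJ
    rw [mem_image] at hJ'
    obtain ⟨K, _, rfl⟩ := hJ'
    exact hi (hJ (mem_insert_self _ _))

theorem R_empty (a : ι → ℝ) (c : ℝ) : R ∅ a c = c⁻¹ := by simp [R]

theorem S_empty (a : ι → ℝ) : S ∅ a = 0 := by simp [S]

theorem R_insert {i : ι} {s : Finset ι} (hi : i ∉ s) (a : ι → ℝ) (c : ℝ) :
    R (insert i s) a c = R s a c - R s a (c + a i) := by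
  rw [R, sum_powerset_insert' hi, R, R, sub_eq_add_neg, ← sum_neg_distrib]
  congr 1
  apply sum_congr rfl
  intro J hJ
  have : i ∉ J := fun h => hi (mem_powerset.1 hJ h)
  rw [card_insert_of_notMem this, sum_insert this, pow_succ, ← add_assoc]
  ring

theorem R2_insert {i : ι} {s : Finset ι} (hi : i ∉ s) (a : ι → ℝ) (c : ℝ) :
    R2 (insert i s) a c = R2 s a c - R2 s a (c + a i) := by
  rw [R2, sum_powerset_insert' hi, R2, R2, sub_eq_add_neg, ← sum_neg_distrib]
  congr 1
  apply sum_congr rfl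
  intro J hJ
  have : i ∉ J := fun h => hi (mem_powerset.1 hJ h)
  rw [card_insert_of_notMem this, sum_insert this, pow_succ, ← add_assoc]
  ring

theorem S_insert {i : ι} {s : Finset ι} (hi : i ∉ s) (a : ι → ℝ) :
    S (insert i s) a = S s a + R s a (a i) := by
  rw [S, sum_powerset_insert' hi, S, R]
  congr 1
  apply sum_congr rfl
  intro J hJ
  have : i ∉ J := fun h => hi (mem_powerset.1 hJ h)
  rw [card_insert_of_notMem this, sum_insert this, pow_succ, pow_succ]
  ring

theorem R_congr {s : Finset ι} {a b : ι → ℝ} (h : ∀ i ∈ s, a i = b i) (c : ℝ) :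
    R s a c = R s b c := by
  apply sum_congr rfl
  intro J hJ
  rw [sum_congr rfl fun j hj => h j (mem_powerset.1 hJ hj)]

theorem S_congr {s : Finset ι} {a b : ι → ℝ} (h : ∀ i ∈ s, a i = b i) : S s a = S s b := by
  apply sum_congr rfl
  intro J hJ
  rw [sum_congr rfl fun j hj => h j (mem_powerset.1 hJ hj)]

theorem S_smul (s : Finset ι) (a : ι → ℝ) (b : ℝ) :
    S s (fun i => b * a i) = b⁻¹ * S s a := by
  rw [S, S, mul_sum]
  apply sum_congr rfl
  intro J _
  rw [← mul_sum, mul_inv]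
  ring

/-- Recursive versions with two values. -/
noncomputable def RR : ℕ → ℕ → ℝ → ℝ → ℝ → ℝ
  | 0, 0, _, _, c => c⁻¹
  | 0, l + 1, x, y, c => RR 0 l x y c - RR 0 l x y (c + y)
  | k + 1, l, x, y, c => RR k l x y c - RR k l x y (c + x)

noncomputable def SS : ℕ → ℕ → ℝ → ℝ → ℝ
  | 0, 0, _, _ => 0
  | 0, l + 1, x, y => SS 0 l x y + RR 0 l x y y
  | k + 1, l, x, y => SS k l x y + RR k l x y x

theorem R_eq_RR_zero {s : Finset ι} {a : ι → ℝ} {x y : ℝ} (h : ∀ i ∈ s, a i = y) (c : ℝ) :
    R s a c = RR 0 s.card x y c := by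
  induction s using Finset.induction_on generalizing c with
  | empty => simp [R_empty, RR]
  | insert i s hi ih =>
    have h' : ∀ j ∈ s, a j = y := fun j hj => h j (mem_insert_of_mem hj)
    rw [R_insert hi, card_insert_of_notMem hi, ih h', ih h', h i (mem_insert_self _ _), RR]

theorem R_eq_RR {s t : Finset ι} {a : ι → ℝ} {x y : ℝ} (hd : Disjoint s t)
    (hs : ∀ i ∈ s, a i = x) (ht : ∀ i ∈ t, a i = y) (c : ℝ) :
    R (s ∪ t) a c = RR s.card t.card x y c := by
  induction s using Finset.induction_on generalizing c with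
  | empty => rw [empty_union, card_empty]; exact R_eq_RR_zero ht c
  | insert i s hi ih =>
    have h' : ∀ j ∈ s, a j = x := fun j hj => hs j (mem_insert_of_mem hj)
    have hd' : Disjoint s t := disjoint_of_subset_left (subset_insert _ _) hd
    have hit : i ∉ s ∪ t := by
      rw [mem_union, not_or]
      exact ⟨hi, fun h => (disjoint_left.1 hd) (mem_insert_self _ _) h⟩
    rw [insert_union, R_insert hit, card_insert_of_notMem hi, ih hd' h', ih hd' h',
      hs i (mem_insert_self _ _)]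
    cases t.card <;> rw [RR]

theorem S_eq_SS_zero {s : Finset ι} {a : ι → ℝ} {x y : ℝ} (h : ∀ i ∈ s, a i = y) :
    S s a = SS 0 s.card x y := by
  induction s using Finset.induction_on with
  | empty => simp [S_empty, SS]
  | insert i s hi ih =>
    have h' : ∀ j ∈ s, a j = y := fun j hj => h j (mem_insert_of_mem hj)
    rw [S_insert hi, card_insert_of_notMem hi, ih h', R_eq_RR_zero (x := x) h',
      h i (mem_insert_self _ _), SS]

theorem S_eq_SS {s t : Finset ι} {a : ι → ℝ} {x y : ℝ} (hd : Disjoint s t)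
    (hs : ∀ i ∈ s, a i = x) (ht : ∀ i ∈ t, a i = y) :
    S (s ∪ t) a = SS s.card t.card x y := by
  induction s using Finset.induction_on with
  | empty => rw [empty_union, card_empty]; exact S_eq_SS_zero ht
  | insert i s hi ih =>
    have h' : ∀ j ∈ s, a j = x := fun j hj => hs j (mem_insert_of_mem hj)
    have hd' : Disjoint s t := disjoint_of_subset_left (subset_insert _ _) hd
    have hit : i ∉ s ∪ t := by
      rw [mem_union, not_or]
      exact ⟨hi, fun h => (disjoint_left.1 hd) (mem_insert_self _ _) h⟩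
    rw [insert_union, S_insert hit, card_insert_of_notMem hi, ih hd' h', R_eq_RR hd' h' ht,
      hs i (mem_insert_self _ _)]
    cases t.card <;> rw [SS]

end Pool.Agent.Q259.MaxExp
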