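import Pool.Agent.Q259.MaxExp.Int

/-! The function `G(x) = ∫ x P(y/x) y/(e^y - 1) dy` takes every value at most twice. -/

open Finset MeasureTheory Set Filter Topology

namespace Pool.Agent.Q259.MaxExp

/-- `κ(y) = y / (e^y - 1)`. -/
noncomputable def κ (y : ℝ) : ℝ := y / (Real.exp y - 1)

theorem exp_sub_pos {y : ℝ} (hy : 0 < y) : 0 < Real.exp y - 1 := by
  have := Real.add_one_lt_exp hy.ne'
  linarith

theorem κ_pos {y : ℝ} (hy : 0 < y) : 0 < κ y := div_pos hy (exp_sub_pos hy)

theorem κ_le {y : ℝ} (hy : 0 < y) : κ y ≤ Real.exp (-(1 / 2 * y)) := by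
  rw [κ, div_le_iff₀ (exp_sub_pos hy)]
  have h1 : Real.exp (-(1 / 2 * y)) * (Real.exp y - 1) =
      Real.exp (1 / 2 * y) - Real.exp (-(1 / 2 * y)) := by
    rw [mul_sub, ← Real.exp_add]
    ring_nf
  rw [h1]
  have h2 : y / 2 ≤ Real.sinh (y / 2) := Real.self_le_sinh_iff.2 (by linarith)
  rw [Real.sinh_eq] at h2
  have e1 : 1 / 2 * y = y / 2 := by ring
  rw [e1]
  linarith

theorem κ_measurable : Measurable κ := by
  unfold κ
  fun_prop

theorem κ_int : IntegrableOn κ (Ioi 0) := by
  refine Integrable.mono' (exp_int (by norm_num : (0 : ℝ) < 1 / 2)) κ_measurable.aestronglyMeasurable ?_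
  rw [ae_restrict_iff' measurableSet_Ioi]
  refine Filter.Eventually.of_forall fun t ht => ?_
  rw [Real.norm_of_nonneg (κ_pos ht).le]
  exact κ_le ht

theorem κ_continuousOn : ContinuousOn κ (Ioi 0) := by
  unfold κ
  apply ContinuousOn.div continuousOn_id (by fun_prop)
  intro y hy
  exact (exp_sub_pos hy).ne'

/-- Strict monotonicity of the ratio `(e^{x₁t}-1)/(e^{x₀t}-1)`. -/
theorem ratio_lt {x0 x1 : ℝ} (h0 : 0 < x0) (h1 : x0 < x1) {t u : ℝ} (ht : 0 < t) (htu : t < u) :
    (Real.exp (x1 * t) - 1) / (Real.exp (x0 * t) - 1) <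
      (Real.exp (x1 * u) - 1) / (Real.exp (x0 * u) - 1) := by
  have hp : 1 < x1 / x0 := (one_lt_div h0).2 h1
  have hc := strictConvexOn_rpow hp
  have hu : 0 < u := ht.trans htu
  have e : ∀ v : ℝ, Real.exp (x0 * v) ^ (x1 / x0) = Real.exp (x1 * v) := by
    intro v
    rw [← Real.exp_mul]
    congr 1
    field_simp
  have hone : (1 : ℝ) ∈ Ici (0 : ℝ) := by simp
  have hmt : Real.exp (x0 * t) ∈ Ici (0 : ℝ) := (Real.exp_pos _).le
  have hmu : Real.exp (x0 * u) ∈ Ici (0 : ℝ) := (Real.exp_pos _).le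
  have ht1 : 1 < Real.exp (x0 * t) := by
    have := exp_sub_pos (mul_pos h0 ht); linarith
  have hu1 : 1 < Real.exp (x0 * u) := by
    have := exp_sub_pos (mul_pos h0 hu); linarith
  have hlt : Real.exp (x0 * t) < Real.exp (x0 * u) := by
    apply Real.exp_lt_exp.2
    exact mul_lt_mul_of_pos_left htu h0
  have := hc.secant_strict_mono hone hmt hmu ht1.ne' hu1.ne' hlt
  rw [e, e, Real.one_rpow] at this
  exact this

theorem κ_anti {t u : ℝ} (ht : 0 < t) (htu : t < u) : κ u < κ t := by
  have hu : 0 < u := ht.trans htu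
  have hone : (0 : ℝ) ∈ (univ : Set ℝ) := mem_univ _
  have := strictConvexOn_exp.secant_strict_mono hone (mem_univ t) (mem_univ u) ht.ne' hu.ne' htu
  rw [Real.exp_zero, sub_zero, sub_zero] at this
  rw [κ, κ, div_lt_div_iff₀ (exp_sub_pos hu) (exp_sub_pos ht)]
  rw [div_lt_div_iff₀ ht hu] at this
  linarith

variable {ι : Type*} [DecidableEq ι]

/-- `t P'(t)`. -/
noncomputable def tP' (s : Finset ι) (a : ι → ℝ) (t : ℝ) : ℝ :=
  ∑ j ∈ s, (∏ i ∈ s.erase j, (1 - Real.exp (-(a i * t)))) * (a j * t * Real.exp (-(a j * t)))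

/-- `Q = P - t P'`. -/
noncomputable def Q (s : Finset ι) (a : ι → ℝ) (t : ℝ) : ℝ := P s a t - tP' s a t

theorem Q_continuous (s : Finset ι) (a : ι → ℝ) : Continuous (Q s a) := by
  unfold Q tP'
  have := P_continuous s a
  fun_prop

/-- `E(t) = ∑ κ(a_j t)`. -/
noncomputable def E (s : Finset ι) (a : ι → ℝ) (t : ℝ) : ℝ := ∑ j ∈ s, κ (a j * t)

theorem Q_eq {s : Finset ι} {a : ι → ℝ} (ha : ∀ i ∈ s, 0 < a i) {t : ℝ} (ht : 0 < t) :
    Q s a t = P s a t * (1 - E s a t) := by
  rw [Q, mul_sub, mul_one]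
  congr 1
  rw [tP', E, mul_sum]
  apply sum_congr rfl
  intro j hj
  have hjt := mul_pos (ha j hj) ht
  rw [P, ← mul_prod_erase s _ hj, κ]
  have h1 : Real.exp (-(a j * t)) * Real.exp (a j * t) = 1 := by rw [← Real.exp_add]; simp
  have h2 := (exp_sub_pos hjt).ne'
  have h3 : (1 - Real.exp (-(a j * t))) = Real.exp (-(a j * t)) * (Real.exp (a j * t) - 1) := by
    rw [mul_sub, h1, mul_one]
  rw [h3]
  generalize Real.exp (-(a j * t)) = A at *
  generalize Real.exp (a j * t) = B at *
  generalize (∏ i ∈ s.erase j, (1 - Real.exp (-(a i * t)))) = C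
  have h4 : A * (B - 1) * C * (a j * t / (B - 1)) = A * C * (a j * t) * ((B - 1) / (B - 1)) := by ring
  rw [h4, div_self h2]
  ring

theorem Q_bound {s : Finset ι} {a : ι → ℝ} (ha : ∀ i ∈ s, 0 < a i) {t : ℝ} (ht : 0 < t) :
    |Q s a t| ≤ 1 + s.card := by
  have h1 : |P s a t| ≤ 1 := by
    rw [abs_of_nonneg (P_nonneg ha ht.le)]
    exact P_le_one ha ht.le
  have h2 : |tP' s a t| ≤ s.card := by
    calc |tP' s a t| ≤ ∑ j ∈ s, |(∏ i ∈ s.erase j, (1 - Real.exp (-(a i * t)))) *
          (a j * t * Real.exp (-(a j * t)))| := abs_sum_le_sum_abs _ _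
      _ ≤ ∑ j ∈ s, (1 : ℝ) := by
          apply sum_le_sum
          intro j hj
          have hjt := mul_pos (ha j hj) ht
          have h' : ∀ i ∈ s.erase j, 0 < a i := fun i hi => ha i (Finset.mem_of_mem_erase hi)
          have e1 : (∏ i ∈ s.erase j, (1 - Real.exp (-(a i * t)))) = P (s.erase j) a t := rfl
          rw [e1, abs_mul, abs_of_nonneg (P_nonneg h' ht.le), abs_of_pos (by positivity)]
          have h3 := P_le_one h' ht.le
          have h4 := P_nonneg h' ht.le
          have h5 : a j * t * Real.exp (-(a j * t)) ≤ 1 := by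
            have h6 : a j * t ≤ Real.exp (a j * t) := by
              have := Real.add_one_le_exp (a j * t)
              linarith
            calc a j * t * Real.exp (-(a j * t))
                ≤ Real.exp (a j * t) * Real.exp (-(a j * t)) := by gcongr
              _ = 1 := by rw [← Real.exp_add]; simp
          have h7 : 0 ≤ a j * t * Real.exp (-(a j * t)) := by positivity
          nlinarith
      _ = s.card := by simp
  calc |Q s a t| ≤ |P s a t| + |tP' s a t| := abs_sub _ _
    _ ≤ _ := add_le_add h1 h2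

theorem P_hasDerivAt (s : Finset ι) (a : ι → ℝ) (t : ℝ) :
    HasDerivAt (P s a) (∑ j ∈ s, (∏ i ∈ s.erase j, (1 - Real.exp (-(a i * t)))) *
      (a j * Real.exp (-(a j * t)))) t := by
  unfold P
  have h : ∀ j ∈ s, HasDerivAt (fun t : ℝ => 1 - Real.exp (-(a j * t)))
      (a j * Real.exp (-(a j * t))) t := by
    intro j _
    have h1 : HasDerivAt (fun t : ℝ => -(a j * t)) (-(a j * 1)) t :=
      ((hasDerivAt_id t).const_mul (a j)).fun_neg
    have := h1.exp.const_sub 1
    refine this.congr_deriv ?_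
    ring
  have := HasDerivAt.fun_finsetProd h
  simpa [smul_eq_mul] using this

/-- The function `G`. -/
noncomputable def G (s : Finset ι) (a : ι → ℝ) (x : ℝ) : ℝ :=
  ∫ y in Ioi (0 : ℝ), x * P s a (y / x) * κ y

/-- Its derivative. -/
noncomputable def G' (s : Finset ι) (a : ι → ℝ) (x : ℝ) : ℝ :=
  ∫ y in Ioi (0 : ℝ), Q s a (y / x) * κ y

theorem G_hasDerivAt {s : Finset ι} {a : ι → ℝ} (ha : ∀ i ∈ s, 0 < a i) {x : ℝ} (hx : 0 < x) :
    HasDerivAt (G s a) (G' s a x) x := by
  have hPc := P_continuous s a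
  have hQc := Q_continuous s a
  have hs : Ioi (0 : ℝ) ∈ 𝓝 x := Ioi_mem_nhds hx
  refine (hasDerivAt_integral_of_dominated_loc_of_deriv_le (μ := volume.restrict (Ioi 0))
    (F := fun x y => x * P s a (y / x) * κ y) (F' := fun x y => Q s a (y / x) * κ y)
    (bound := fun y => (1 + s.card : ℝ) * κ y) hs ?_ ?_ ?_ ?_ ?_ ?_).2
  · refine Filter.Eventually.of_forall fun x => ?_
    exact (((by fun_prop : Continuous fun y : ℝ => x * P s a (y / x)).measurable).mul
      κ_measurable).aestronglyMeasurable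
  · refine Integrable.mono' (κ_int.const_mul x)
      (((by fun_prop : Continuous fun y : ℝ => x * P s a (y / x)).measurable).mul
      κ_measurable).aestronglyMeasurable ?_
    rw [ae_restrict_iff' measurableSet_Ioi]
    refine Filter.Eventually.of_forall fun y hy => ?_
    have hy : 0 < y := hy
    have h1 := P_nonneg ha (div_pos hy hx).le
    have h2 := P_le_one ha (div_pos hy hx).le
    have h3 := κ_pos hy
    rw [Real.norm_of_nonneg (by positivity)]
    have : x * P s a (y / x) ≤ x := by nlinarith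
    nlinarith
  · exact (((by fun_prop : Continuous fun y : ℝ => Q s a (y / x)).measurable).mul
      κ_measurable).aestronglyMeasurable
  · rw [ae_restrict_iff' measurableSet_Ioi]
    refine Filter.Eventually.of_forall fun y hy z hz => ?_
    have hy : 0 < y := hy
    have hz : 0 < z := hz
    rw [norm_mul, Real.norm_of_nonneg (κ_pos hy).le, Real.norm_eq_abs]
    have := Q_bound ha (div_pos hy hz)
    have h3 := κ_pos hy
    gcongr
  · exact κ_int.const_mul _
  · rw [ae_restrict_iff' measurableSet_Ioi]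
    refine Filter.Eventually.of_forall fun y hy z hz => ?_
    have hz : 0 < z := hz
    have h1 : HasDerivAt (fun z : ℝ => y / z) (-(y / z ^ 2)) z := by
      have := (hasDerivAt_inv hz.ne').const_mul y
      refine this.congr_deriv ?_
      field_simp
    have h2 := (P_hasDerivAt s a (y / z)).comp z h1
    have h3 := ((hasDerivAt_id z).mul h2).mul_const (κ y)
    refine h3.congr_deriv ?_
    simp only [id, Function.comp, one_mul]
    congr 1
    rw [Q, tP', sub_eq_add_neg]
    congr 1
    rw [← sum_neg_distrib, sum_mul, mul_sum]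
    apply sum_congr rfl
    intro j _
    generalize (∏ i ∈ s.erase j, (1 - Real.exp (-(a i * (y / z))))) = A
    generalize Real.exp (-(a j * (y / z))) = B
    have h4 : z * (A * (a j * B) * -(y / z ^ 2)) = -(A * (a j * y * B) * (z / z ^ 2)) := by ring
    have h5 : z / z ^ 2 = 1 / z := by field_simp
    rw [h4, h5]
    ring

theorem G'_eq {s : Finset ι} {a : ι → ℝ} {x : ℝ} (hx : 0 < x) :
    G' s a x = x * ∫ t in Ioi (0 : ℝ), Q s a t * κ (x * t) := by
  have := integral_comp_mul_left_Ioi (fun y => Q s a (y / x) * κ y) 0 hx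
  rw [mul_zero, smul_eq_mul] at this
  have e : ∀ t : ℝ, x * t / x = t := fun t => by field_simp
  simp only [e] at this
  rw [this, G', ← mul_assoc, mul_inv_cancel₀ hx.ne', one_mul]

/-- The value of `G` at `a_i`. -/
theorem G_eq {s : Finset ι} {a : ι → ℝ} (ha : ∀ i ∈ s, 0 < a i) {i : ι} (hi : i ∈ s) :
    G s a (a i) = a i ^ 3 * R2 (s.erase i) a (a i) := by
  have hai := ha i hi
  have h' : ∀ j ∈ s.erase i, 0 < a j := fun j hj => ha j (Finset.mem_of_mem_erase hj)
  rw [R2_eq h' hai]
  have := integral_comp_mul_left_Ioi (fun y => a i * P s a (y / a i) * κ y) 0 hai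
  rw [mul_zero, smul_eq_mul] at this
  have e : ∀ t : ℝ, a i * t / a i = t := fun t => by field_simp
  simp only [e] at this
  have h2 : G s a (a i) = a i * ∫ t in Ioi (0 : ℝ), a i * P s a t * κ (a i * t) := by
    rw [this, G, ← mul_assoc, mul_inv_cancel₀ hai.ne', one_mul]
  rw [h2]
  have h3 : ∫ t in Ioi (0 : ℝ), a i * P s a t * κ (a i * t) =
      ∫ t in Ioi (0 : ℝ), a i ^ 2 * (t * Real.exp (-(a i * t)) * P (s.erase i) a t) := by
    apply setIntegral_congr_fun measurableSet_Ioi
    intro t ht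
    have ht : 0 < t := ht
    have h4 := (exp_sub_pos (mul_pos hai ht)).ne'
    have h1 : Real.exp (-(a i * t)) * Real.exp (a i * t) = 1 := by rw [← Real.exp_add]; simp
    have h5 : (1 - Real.exp (-(a i * t))) = Real.exp (-(a i * t)) * (Real.exp (a i * t) - 1) := by
      rw [mul_sub, h1, mul_one]
    have h6 : P s a t = (1 - Real.exp (-(a i * t))) * P (s.erase i) a t := by
      rw [P, ← mul_prod_erase s _ hi, P]
    simp only [κ]
    rw [h6, h5]
    field_simp
  rw [h3, integral_const_mul]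
  ring

theorem QK_int {s : Finset ι} {a : ι → ℝ} (ha : ∀ i ∈ s, 0 < a i) {x : ℝ} (hx : 0 < x) :
    IntegrableOn (fun t => Q s a t * κ (x * t)) (Ioi 0) := by
  have hQc := Q_continuous s a
  have h1 : IntegrableOn (fun t => κ (x * t)) (Ioi 0) := by
    have := (integrableOn_Ioi_comp_mul_left_iff κ 0 hx).2 (by simpa using κ_int)
    exact this
  refine Integrable.mono' (h1.const_mul (1 + s.card : ℝ)) ?_ ?_
  · exact (hQc.measurable.mul (κ_measurable.comp (measurable_const_mul x))).aestronglyMeasurable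
  rw [ae_restrict_iff' measurableSet_Ioi]
  refine Filter.Eventually.of_forall fun y hy => ?_
  have hy : 0 < y := hy
  rw [norm_mul, Real.norm_of_nonneg (κ_pos (mul_pos hx hy)).le, Real.norm_eq_abs]
  have := Q_bound ha hy
  have h3 := κ_pos (mul_pos hx hy)
  gcongr

/-- positivity of an integral of a function positive off one point. -/
theorem integral_pos_of {f : ℝ → ℝ} (hf : IntegrableOn f (Ioi 0)) {u : ℝ} (hu : 0 ≤ u)
    (h : ∀ t, 0 < t → t ≠ u → 0 < f t) (h0 : ∀ t, 0 < t → 0 ≤ f t) :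
    0 < ∫ t in Ioi (0 : ℝ), f t := by
  rw [setIntegral_pos_iff_support_of_nonneg_ae _ hf]
  · have : Ioi u ⊆ Function.support f ∩ Ioi 0 := by
      intro t ht
      have ht : u < t := ht
      exact ⟨(h t (hu.trans_lt ht) ht.ne').ne', hu.trans_lt ht⟩
    refine lt_of_lt_of_le ?_ (measure_mono this)
    rw [Real.volume_Ioi]
    exact ENNReal.zero_lt_top
  · rw [EventuallyLE, ae_restrict_iff' measurableSet_Ioi]
    exact Filter.Eventually.of_forall fun t ht => h0 t ht

theorem E_anti {s : Finset ι} {a : ι → ℝ} (ha : ∀ i ∈ s, 0 < a i) (hs : s.Nonempty) {t u : ℝ}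
    (ht : 0 < t) (htu : t < u) : E s a u < E s a t := by
  apply sum_lt_sum_of_nonempty hs
  intro j hj
  exact κ_anti (mul_pos (ha j hj) ht) (mul_lt_mul_of_pos_left htu (ha j hj))

/-- A zero of `G'` forces a sign change of `Q`. -/
theorem exists_zero {s : Finset ι} {a : ι → ℝ} (ha : ∀ i ∈ s, 0 < a i) {x : ℝ} (hx : 0 < x)
    (h0 : ∫ t in Ioi (0 : ℝ), Q s a t * κ (x * t) = 0) : ∃ u, 0 < u ∧ Q s a u = 0 := by
  by_contra hcon
  push Not at hcon
  have hint := QK_int ha hx
  have hconn : IsPreconnected (Ioi (0 : ℝ)) := isPreconnected_Ioi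
  have hQc : ContinuousOn (Q s a) (Ioi 0) := (Q_continuous s a).continuousOn
  rcases lt_trichotomy (Q s a 1) 0 with h1 | h1 | h1
  · have hneg : ∀ t, 0 < t → Q s a t < 0 := by
      intro t ht
      by_contra hh
      push Not at hh
      obtain ⟨v, hv, hv0⟩ := hconn.intermediate_value (mem_Ioi.2 one_pos) (mem_Ioi.2 ht) hQc
        ⟨h1.le, hh⟩
      exact hcon v hv hv0
    have := integral_pos_of (f := fun t => -(Q s a t * κ (x * t))) hint.neg le_rfl
      (fun t ht _ => by
        have := mul_neg_of_neg_of_pos (hneg t ht) (κ_pos (mul_pos hx ht)); linarith)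
      (fun t ht => by
        have := mul_neg_of_neg_of_pos (hneg t ht) (κ_pos (mul_pos hx ht)); linarith)
    rw [integral_neg, h0] at this
    simp at this
  · exact hcon 1 one_pos h1
  · have hpos : ∀ t, 0 < t → 0 < Q s a t := by
      intro t ht
      by_contra hh
      push Not at hh
      obtain ⟨v, hv, hv0⟩ := hconn.intermediate_value (mem_Ioi.2 ht) (mem_Ioi.2 one_pos) hQc
        ⟨hh, h1.le⟩
      exact hcon v hv hv0
    have := integral_pos_of (f := fun t => Q s a t * κ (x * t)) hint le_rfl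
      (fun t ht _ => mul_pos (hpos t ht) (κ_pos (mul_pos hx ht)))
      (fun t ht => (mul_pos (hpos t ht) (κ_pos (mul_pos hx ht))).le)
    rw [h0] at this
    exact lt_irrefl _ this

/-- After a zero, `G'` is negative. -/
theorem G'_neg {s : Finset ι} {a : ι → ℝ} (ha : ∀ i ∈ s, 0 < a i) (hs : s.Nonempty) {x0 x1 : ℝ}
    (hx0 : 0 < x0) (hx : x0 < x1) (h0 : G' s a x0 = 0) : G' s a x1 < 0 := by
  have hx1 : 0 < x1 := hx0.trans hx
  rw [G'_eq hx0] at h0
  have h0' := (mul_eq_zero.1 h0).resolve_left hx0.ne'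
  obtain ⟨u, hu, hQu⟩ := exists_zero ha hx0 h0'
  have hEu : E s a u = 1 := by
    rw [Q_eq ha hu] at hQu
    have := (mul_eq_zero.1 hQu).resolve_left (P_pos ha hu).ne'
    linarith
  rw [G'_eq hx1]
  apply mul_neg_of_pos_of_neg hx1
  -- the ratio
  set r : ℝ := κ (x1 * u) / κ (x0 * u) with hr
  have hκ : ∀ t, 0 < t → κ (x1 * t) = (x1 / x0) *
      ((Real.exp (x1 * t) - 1) / (Real.exp (x0 * t) - 1))⁻¹ * κ (x0 * t) := by
    intro t ht
    have e1 := (exp_sub_pos (mul_pos hx0 ht)).ne'
    have e2 := (exp_sub_pos (mul_pos hx1 ht)).ne'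
    rw [κ, κ]
    generalize Real.exp (x1 * t) - 1 = A at *
    generalize Real.exp (x0 * t) - 1 = B at *
    field_simp
  set ρ : ℝ → ℝ := fun t => (x1 / x0) * ((Real.exp (x1 * t) - 1) / (Real.exp (x0 * t) - 1))⁻¹ with hρ
  have hρanti : ∀ t v : ℝ, 0 < t → t < v → ρ v < ρ t := by
    intro t v ht htv
    have hv := ht.trans htv
    simp only [hρ]
    apply mul_lt_mul_of_pos_left _ (by positivity)
    apply inv_strictAnti₀ _ (ratio_lt hx0 hx ht htv)
    exact div_pos (exp_sub_pos (mul_pos hx1 ht)) (exp_sub_pos (mul_pos hx0 ht))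
  have hkey : ∀ t, 0 < t → t ≠ u → Q s a t * (ρ t - ρ u) < 0 := by
    intro t ht htu
    rcases lt_or_gt_of_ne htu with h | h
    · have h1 : 1 < E s a t := by rw [← hEu]; exact E_anti ha hs ht h
      have h2 : Q s a t < 0 := by
        rw [Q_eq ha ht]
        exact mul_neg_of_pos_of_neg (P_pos ha ht) (by linarith)
      have h3 := hρanti t u ht h
      exact mul_neg_of_neg_of_pos h2 (by linarith)
    · have h1 : E s a t < 1 := by rw [← hEu]; exact E_anti ha hs hu h
      have h2 : 0 < Q s a t := by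
        rw [Q_eq ha ht]
        exact mul_pos (P_pos ha ht) (by linarith)
      have h3 := hρanti u t hu h
      exact mul_neg_of_pos_of_neg h2 (by linarith)
  have hi0 := QK_int ha hx0
  have hi1 := QK_int ha hx1
  have hfun : ∀ t, 0 < t → -(Q s a t * κ (x1 * t) - ρ u * (Q s a t * κ (x0 * t))) =
      -(Q s a t * (ρ t - ρ u)) * κ (x0 * t) := by
    intro t ht
    have := hκ t ht
    rw [this]
    ring
  have := integral_pos_of (f := fun t => -(Q s a t * κ (x1 * t) - ρ u * (Q s a t * κ (x0 * t))))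
    (hi1.sub (hi0.const_mul (ρ u))).neg hu.le
    (fun t ht htu => by
      rw [hfun t ht]
      exact mul_pos (by linarith [hkey t ht htu]) (κ_pos (mul_pos hx0 ht)))
    (fun t ht => by
      rw [hfun t ht]
      by_cases htu : t = u
      · rw [htu]; simp
      · exact (mul_pos (by linarith [hkey t ht htu]) (κ_pos (mul_pos hx0 ht))).le)
  rw [integral_neg, integral_sub hi1 (hi0.const_mul (ρ u)), integral_const_mul, h0', mul_zero,
    sub_zero] at this
  linarith

/-- `G` takes every value at most twice. -/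
theorem G_three {s : Finset ι} {a : ι → ℝ} (ha : ∀ i ∈ s, 0 < a i) (hs : s.Nonempty)
    {x y z : ℝ} (hx : 0 < x) (hxy : x < y) (hyz : y < z) (h1 : G s a x = G s a y)
    (h2 : G s a y = G s a z) : False := by
  have hd : ∀ v, 0 < v → HasDerivAt (G s a) (G' s a v) v := fun v hv => G_hasDerivAt ha hv
  have hcont : ContinuousOn (G s a) (Ioi 0) := fun v hv => (hd v hv).continuousAt.continuousWithinAt
  obtain ⟨w, hw, hw0⟩ := exists_hasDerivAt_eq_zero hxy
    (hcont.mono fun v hv => hx.trans_le hv.1) h1 (fun v hv => hd v (hx.trans hv.1))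
  have hw' : 0 < w := hx.trans hw.1
  obtain ⟨w2, hw2, hw20⟩ := exists_hasDerivAt_eq_zero hyz
    (hcont.mono fun v hv => (hx.trans hxy).trans_le hv.1) h2
    (fun v hv => hd v ((hx.trans hxy).trans hv.1))
  have := G'_neg ha hs hw' (hw.2.trans hw2.1) hw0
  rw [hw20] at this
  exact lt_irrefl _ this

end Pool.Agent.Q259.MaxExp
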