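import Pool.Agent.Q259.MaxExp.Alg

/-! Integral representations. -/

open Finset MeasureTheory Set

namespace Pool.Agent.Q259.MaxExp

variable {ι : Type*} [DecidableEq ι]

/-- `P(t) = ∏ (1 - e^{-a_j t})`. -/
noncomputable def P (s : Finset ι) (a : ι → ℝ) (t : ℝ) : ℝ := ∏ j ∈ s, (1 - Real.exp (-(a j * t)))

theorem P_nonneg {s : Finset ι} {a : ι → ℝ} (ha : ∀ i ∈ s, 0 < a i) {t : ℝ} (ht : 0 ≤ t) :
    0 ≤ P s a t := by
  apply prod_nonneg
  intro j hj
  have : Real.exp (-(a j * t)) ≤ 1 := by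
    apply Real.exp_le_one_iff.2
    have := mul_nonneg (ha j hj).le ht
    linarith
  linarith

theorem P_pos {s : Finset ι} {a : ι → ℝ} (ha : ∀ i ∈ s, 0 < a i) {t : ℝ} (ht : 0 < t) :
    0 < P s a t := by
  apply prod_pos
  intro j hj
  have : Real.exp (-(a j * t)) < 1 := by
    have := mul_pos (ha j hj) ht
    rw [← Real.exp_zero]
    apply Real.exp_lt_exp.2
    linarith
  linarith

theorem P_le_one {s : Finset ι} {a : ι → ℝ} (ha : ∀ i ∈ s, 0 < a i) {t : ℝ} (ht : 0 ≤ t) :
    P s a t ≤ 1 := by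
  apply prod_le_one
  · intro j hj
    have : Real.exp (-(a j * t)) ≤ 1 := by
      apply Real.exp_le_one_iff.2
      have := mul_nonneg (ha j hj).le ht
      linarith
    linarith
  · intro j hj
    have := Real.exp_pos (-(a j * t))
    linarith

theorem P_continuous (s : Finset ι) (a : ι → ℝ) : Continuous (P s a) := by
  unfold P
  fun_prop

theorem P_insert {i : ι} {s : Finset ι} (hi : i ∉ s) (a : ι → ℝ) (t : ℝ) :
    P (insert i s) a t = (1 - Real.exp (-(a i * t))) * P s a t := by
  rw [P, prod_insert hi, P]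

theorem exp_int {c : ℝ} (hc : 0 < c) : IntegrableOn (fun t : ℝ => Real.exp (-(c * t))) (Ioi 0) := by
  have := exp_neg_integrableOn_Ioi 0 hc
  simpa using this

theorem texp_int {c : ℝ} (hc : 0 < c) :
    IntegrableOn (fun t : ℝ => t * Real.exp (-(c * t))) (Ioi 0) := by
  have h1 : IntegrableOn (fun t : ℝ => 2 / c * Real.exp (-(c / 2 * t))) (Ioi 0) :=
    (exp_int (by positivity : 0 < c / 2)).const_mul _
  refine Integrable.mono' h1 (by fun_prop) ?_
  rw [ae_restrict_iff' measurableSet_Ioi]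
  refine Filter.Eventually.of_forall fun t ht => ?_
  have ht : 0 < t := ht
  rw [Real.norm_of_nonneg (by positivity)]
  have e1 : Real.exp (-(c * t)) = Real.exp (-(c / 2 * t)) * Real.exp (-(c / 2 * t)) := by
    rw [← Real.exp_add]; ring_nf
  have h2 : c / 2 * t * Real.exp (-(c / 2 * t)) ≤ 1 := by
    have h3 : c / 2 * t ≤ Real.exp (c / 2 * t) := by
      have := Real.add_one_le_exp (c / 2 * t)
      linarith
    calc c / 2 * t * Real.exp (-(c / 2 * t)) ≤ Real.exp (c / 2 * t) * Real.exp (-(c / 2 * t)) := by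
          gcongr
      _ = 1 := by rw [← Real.exp_add]; simp
  rw [e1]
  calc t * (Real.exp (-(c / 2 * t)) * Real.exp (-(c / 2 * t)))
      = 2 / c * (c / 2 * t * Real.exp (-(c / 2 * t))) * Real.exp (-(c / 2 * t)) := by
        field_simp
    _ ≤ 2 / c * 1 * Real.exp (-(c / 2 * t)) := by gcongr
    _ = _ := by ring

theorem exp_val {c : ℝ} (hc : 0 < c) : ∫ t in Ioi (0 : ℝ), Real.exp (-(c * t)) = c⁻¹ := by
  have := integral_exp_mul_Ioi (a := -c) (by linarith) 0
  simpa using this

theorem texp_val {c : ℝ} (hc : 0 < c) : ∫ t in Ioi (0 : ℝ), t * Real.exp (-(c * t)) = (c ^ 2)⁻¹ := by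
  have := Real.integral_rpow_mul_exp_neg_mul_Ioi (a := 2) (r := c) (by norm_num) hc
  have h2 : Real.Gamma 2 = 1 := by
    norm_num
  rw [h2, mul_one] at this
  norm_num at this
  exact this

theorem expP_int {s : Finset ι} {a : ι → ℝ} (ha : ∀ i ∈ s, 0 < a i) {c : ℝ} (hc : 0 < c) :
    IntegrableOn (fun t : ℝ => Real.exp (-(c * t)) * P s a t) (Ioi 0) := by
  refine Integrable.mono' (exp_int hc) ?_ ?_
  · have := P_continuous s a
    exact (by fun_prop : Continuous fun t : ℝ => Real.exp (-(c * t)) * P s a t).aestronglyMeasurable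
  rw [ae_restrict_iff' measurableSet_Ioi]
  refine Filter.Eventually.of_forall fun t ht => ?_
  have ht : 0 < t := ht
  rw [Real.norm_of_nonneg (mul_nonneg (Real.exp_pos _).le (P_nonneg ha ht.le))]
  have := P_le_one ha ht.le
  have := Real.exp_pos (-(c * t))
  nlinarith

theorem texpP_int {s : Finset ι} {a : ι → ℝ} (ha : ∀ i ∈ s, 0 < a i) {c : ℝ} (hc : 0 < c) :
    IntegrableOn (fun t : ℝ => t * Real.exp (-(c * t)) * P s a t) (Ioi 0) := by
  refine Integrable.mono' (texp_int hc) ?_ ?_
  · have := P_continuous s a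
    exact (by fun_prop :
      Continuous fun t : ℝ => t * Real.exp (-(c * t)) * P s a t).aestronglyMeasurable
  rw [ae_restrict_iff' measurableSet_Ioi]
  refine Filter.Eventually.of_forall fun t ht => ?_
  have ht : 0 < t := ht
  have h0 : 0 ≤ t * Real.exp (-(c * t)) := by positivity
  rw [Real.norm_of_nonneg (mul_nonneg h0 (P_nonneg ha ht.le))]
  have := P_le_one ha ht.le
  nlinarith

theorem R_eq {s : Finset ι} {a : ι → ℝ} (ha : ∀ i ∈ s, 0 < a i) {c : ℝ} (hc : 0 < c) :
    R s a c = ∫ t in Ioi (0 : ℝ), Real.exp (-(c * t)) * P s a t := by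
  induction s using Finset.induction_on generalizing c with
  | empty => rw [R_empty]; simp [P, exp_val hc]
  | insert i s hi ih =>
    have h' : ∀ j ∈ s, 0 < a j := fun j hj => ha j (Finset.mem_insert_of_mem hj)
    have hai := ha i (Finset.mem_insert_self _ _)
    rw [R_insert hi, ih h' hc, ih h' (add_pos hc hai),
      ← integral_sub (expP_int h' hc) (expP_int h' (add_pos hc hai))]
    congr 1
    funext t
    rw [P_insert hi]
    have e1 : Real.exp (-((c + a i) * t)) = Real.exp (-(c * t)) * Real.exp (-(a i * t)) := by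
      rw [← Real.exp_add]; ring_nf
    rw [e1]
    ring

theorem R2_eq {s : Finset ι} {a : ι → ℝ} (ha : ∀ i ∈ s, 0 < a i) {c : ℝ} (hc : 0 < c) :
    R2 s a c = ∫ t in Ioi (0 : ℝ), t * Real.exp (-(c * t)) * P s a t := by
  induction s using Finset.induction_on generalizing c with
  | empty => simp [R2, P, texp_val hc]
  | insert i s hi ih =>
    have h' : ∀ j ∈ s, 0 < a j := fun j hj => ha j (Finset.mem_insert_of_mem hj)
    have hai := ha i (Finset.mem_insert_self _ _)
    rw [R2_insert hi, ih h' hc, ih h' (add_pos hc hai),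
      ← integral_sub (texpP_int h' hc) (texpP_int h' (add_pos hc hai))]
    congr 1
    funext t
    rw [P_insert hi]
    have e1 : Real.exp (-((c + a i) * t)) = Real.exp (-(c * t)) * Real.exp (-(a i * t)) := by
      rw [← Real.exp_add]; ring_nf
    rw [e1]
    ring

theorem R_nonneg {s : Finset ι} {a : ι → ℝ} (ha : ∀ i ∈ s, 0 < a i) {c : ℝ} (hc : 0 < c) :
    0 ≤ R s a c := by
  rw [R_eq ha hc]
  apply setIntegral_nonneg measurableSet_Ioi
  intro t ht
  exact mul_nonneg (Real.exp_pos _).le (P_nonneg ha (le_of_lt ht))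

theorem S_nonneg {s : Finset ι} {a : ι → ℝ} (ha : ∀ i ∈ s, 0 < a i) : 0 ≤ S s a := by
  induction s using Finset.induction_on with
  | empty => rw [S_empty]
  | insert i s hi ih =>
    have h' : ∀ j ∈ s, 0 < a j := fun j hj => ha j (Finset.mem_insert_of_mem hj)
    rw [S_insert hi]
    exact add_nonneg (ih h') (R_nonneg h' (ha i (Finset.mem_insert_self _ _)))

theorem S_le_insert {i : ι} {s : Finset ι} (hi : i ∉ s) {a : ι → ℝ}
    (ha : ∀ j ∈ insert i s, 0 < a j) : S s a ≤ S (insert i s) a := by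
  have h' : ∀ j ∈ s, 0 < a j := fun j hj => ha j (Finset.mem_insert_of_mem hj)
  rw [S_insert hi]
  have := R_nonneg h' (ha i (Finset.mem_insert_self _ _))
  linarith

end Pool.Agent.Q259.MaxExp
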