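import Pool.Agent.Q259.MaxExp.Alg

/-! Two-value inequalities. Generated. -/

set_option maxRecDepth 4000

namespace Pool.Agent.Q259.MaxExp

theorem T_1_1 {x : ℝ} (hx : 0 ≤ x) :
    (1 : ℝ) / (1 + x) ^ 2 + 1 ≤ SS 1 1 (1 + x) 1 ^ 2 := by
  have h1_0 : (1 + x) ≠ 0 := by positivity
  have h1_1 : (2 + x) ≠ 0 := by positivity
  have e1 : SS 1 1 (1 + x) 1 = (1) * (1 : ℝ)⁻¹ + (1) * (1 + x)⁻¹ + (-1) * (2 + x)⁻¹ := by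
    simp only [SS, RR]
    ring
  have e2 : SS 1 1 (1 + x) 1 = 1 + 1 * (1 + x)⁻¹ + -1 * (2 + x)⁻¹ := by
    rw [e1]
    ring
  have e3 : SS 1 1 (1 + x) 1 = (3 + 3 * x + 1 * x ^ 2) / ((1 + x) * (2 + x)) := by
    rw [e2]
    field_simp
    ring
  have e4 : (1 : ℝ) / (1 + x) ^ 2 + 1 = (1 + 1 * (1 + x) ^ 2) * ((2 + x)) ^ 2 / ((1 + x) * (2 + x)) ^ 2 := by
    field_simp
  rw [e3, e4, div_pow]
  apply div_le_div_of_nonneg_right _ (by positivity)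
  have e5 : (3 + 3 * x + 1 * x ^ 2) ^ 2 - (1 + 1 * (1 + x) ^ 2) * ((2 + x)) ^ 2 = 1 + 2 * x + 1 * x ^ 2 := by
    ring
  have e6 : 0 ≤ 1 + 2 * x + 1 * x ^ 2 := by positivity
  rw [← e5] at e6
  linarith

theorem T_1_2 {x : ℝ} (hx : 0 ≤ x) :
    (1 : ℝ) / (1 + x) ^ 2 + 2 ≤ SS 1 2 (1 + x) 1 ^ 2 := by
  have h1_0 : (1 + x) ≠ 0 := by positivity
  have h1_1 : (2 + x) ≠ 0 := by positivity
  have h1_2 : (3 + x) ≠ 0 := by positivity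
  have e1 : SS 1 2 (1 + x) 1 = (2) * (1 : ℝ)⁻¹ + (-1) * (2 : ℝ)⁻¹ + (1) * (1 + x)⁻¹ + (-2) * (2 + x)⁻¹ + (1) * (3 + x)⁻¹ := by
    simp only [SS, RR]
    ring
  have e2 : SS 1 2 (1 + x) 1 = (3/2) + 1 * (1 + x)⁻¹ + -2 * (2 + x)⁻¹ + 1 * (3 + x)⁻¹ := by
    rw [e1]
    ring
  have e3 : SS 1 2 (1 + x) 1 = (11 + (33/2) * x + 9 * x ^ 2 + (3/2) * x ^ 3) / ((1 + x) * (2 + x) * (3 + x)) := by
    rw [e2]
    field_simp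
    ring
  have e4 : (1 : ℝ) / (1 + x) ^ 2 + 2 = (1 + 2 * (1 + x) ^ 2) * ((2 + x) * (3 + x)) ^ 2 / ((1 + x) * (2 + x) * (3 + x)) ^ 2 := by
    field_simp
  rw [e3, e4, div_pow]
  apply div_le_div_of_nonneg_right _ (by positivity)
  have e5 : (11 + (33/2) * x + 9 * x ^ 2 + (3/2) * x ^ 3) ^ 2 - (1 + 2 * (1 + x) ^ 2) * ((2 + x) * (3 + x)) ^ 2 = 13 + 39 * x + (189/4) * x ^ 2 + 32 * x ^ 3 + (27/2) * x ^ 4 + 3 * x ^ 5 + (1/4) * x ^ 6 := by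
    ring
  have e6 : 0 ≤ 13 + 39 * x + (189/4) * x ^ 2 + 32 * x ^ 3 + (27/2) * x ^ 4 + 3 * x ^ 5 + (1/4) * x ^ 6 := by positivity
  rw [← e5] at e6
  linarith

theorem T_2_1 {x : ℝ} (hx : 0 ≤ x) :
    (2 : ℝ) / (1 + x) ^ 2 + 1 ≤ SS 2 1 (1 + x) 1 ^ 2 := by
  have h1_0 : (1 + x) ≠ 0 := by positivity
  have h1_1 : (2 + x) ≠ 0 := by positivity
  have h2_1 : (3 + 2 * x) ≠ 0 := by positivity
  have e1 : SS 2 1 (1 + x) 1 = (1) * (1 : ℝ)⁻¹ + (2) * (1 + x)⁻¹ + (-2) * (2 + x)⁻¹ + (-1) * (2 + 2 * x)⁻¹ + (1) * (3 + 2 * x)⁻¹ := by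
    simp only [SS, RR]
    ring
  have e2 : SS 2 1 (1 + x) 1 = 1 + (3/2) * (1 + x)⁻¹ + -2 * (2 + x)⁻¹ + 1 * (3 + 2 * x)⁻¹ := by
    rw [e1]
    rw [show (2 + 2 * x) = 2 * (1 + x) by ring, mul_inv]
    ring
  have e3 : SS 2 1 (1 + x) 1 = (11 + (33/2) * x + 9 * x ^ 2 + 2 * x ^ 3) / ((1 + x) * (2 + x) * (3 + 2 * x)) := by
    rw [e2]
    field_simp
    ring
  have e4 : (2 : ℝ) / (1 + x) ^ 2 + 1 = (2 + 1 * (1 + x) ^ 2) * ((2 + x) * (3 + 2 * x)) ^ 2 / ((1 + x) * (2 + x) * (3 + 2 * x)) ^ 2 := by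
    field_simp
  rw [e3, e4, div_pow]
  apply div_le_div_of_nonneg_right _ (by positivity)
  have e5 : (11 + (33/2) * x + 9 * x ^ 2 + 2 * x ^ 3) ^ 2 - (2 + 1 * (1 + x) ^ 2) * ((2 + x) * (3 + 2 * x)) ^ 2 = 13 + 39 * x + (189/4) * x ^ 2 + 27 * x ^ 3 + 6 * x ^ 4 := by
    ring
  have e6 : 0 ≤ 13 + 39 * x + (189/4) * x ^ 2 + 27 * x ^ 3 + 6 * x ^ 4 := by positivity
  rw [← e5] at e6
  linarith

theorem T_1_3 {x : ℝ} (hx : 0 ≤ x) :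
    (1 : ℝ) / (1 + x) ^ 2 + 3 ≤ SS 1 3 (1 + x) 1 ^ 2 := by
  have h1_0 : (1 + x) ≠ 0 := by positivity
  have h1_1 : (2 + x) ≠ 0 := by positivity
  have h1_2 : (3 + x) ≠ 0 := by positivity
  have h1_3 : (4 + x) ≠ 0 := by positivity
  have e1 : SS 1 3 (1 + x) 1 = (3) * (1 : ℝ)⁻¹ + (-3) * (2 : ℝ)⁻¹ + (1) * (3 : ℝ)⁻¹ + (1) * (1 + x)⁻¹ + (-3) * (2 + x)⁻¹ + (3) * (3 + x)⁻¹ + (-1) * (4 + x)⁻¹ := by
    simp only [SS, RR]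
    ring
  have e2 : SS 1 3 (1 + x) 1 = (11/6) + 1 * (1 + x)⁻¹ + -3 * (2 + x)⁻¹ + 3 * (3 + x)⁻¹ + -1 * (4 + x)⁻¹ := by
    rw [e1]
    ring
  have e3 : SS 1 3 (1 + x) 1 = (50 + (275/3) * x + (385/6) * x ^ 2 + (55/3) * x ^ 3 + (11/6) * x ^ 4) / ((1 + x) * (2 + x) * (3 + x) * (4 + x)) := by
    rw [e2]
    field_simp
    ring
  have e4 : (1 : ℝ) / (1 + x) ^ 2 + 3 = (1 + 3 * (1 + x) ^ 2) * ((2 + x) * (3 + x) * (4 + x)) ^ 2 / ((1 + x) * (2 + x) * (3 + x) * (4 + x)) ^ 2 := by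
    field_simp
  rw [e3, e4, div_pow]
  apply div_le_div_of_nonneg_right _ (by positivity)
  have e5 : (50 + (275/3) * x + (385/6) * x ^ 2 + (55/3) * x ^ 3 + (11/6) * x ^ 4) ^ 2 - (1 + 3 * (1 + x) ^ 2) * ((2 + x) * (3 + x) * (4 + x)) ^ 2 = 196 + (2156/3) * x + (10543/9) * x ^ 2 + (10271/9) * x ^ 3 + (25553/36) * x ^ 4 + (2438/9) * x ^ 5 + (1087/18) * x ^ 6 + (65/9) * x ^ 7 + (13/36) * x ^ 8 := by
    ring
  have e6 : 0 ≤ 196 + (2156/3) * x + (10543/9) * x ^ 2 + (10271/9) * x ^ 3 + (25553/36) * x ^ 4 + (2438/9) * x ^ 5 + (1087/18) * x ^ 6 + (65/9) * x ^ 7 + (13/36) * x ^ 8 := by positivity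
  rw [← e5] at e6
  linarith

theorem T_2_2 {x : ℝ} (hx : 0 ≤ x) :
    (2 : ℝ) / (1 + x) ^ 2 + 2 ≤ SS 2 2 (1 + x) 1 ^ 2 := by
  have h1_0 : (1 + x) ≠ 0 := by positivity
  have h1_1 : (2 + x) ≠ 0 := by positivity
  have h1_2 : (3 + x) ≠ 0 := by positivity
  have h2_1 : (3 + 2 * x) ≠ 0 := by positivity
  have e1 : SS 2 2 (1 + x) 1 = (2) * (1 : ℝ)⁻¹ + (-1) * (2 : ℝ)⁻¹ + (2) * (1 + x)⁻¹ + (-4) * (2 + x)⁻¹ + (2) * (3 + x)⁻¹ + (-1) * (2 + 2 * x)⁻¹ + (2) * (3 + 2 * x)⁻¹ + (-1) * (4 + 2 * x)⁻¹ := by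
    simp only [SS, RR]
    ring
  have e2 : SS 2 2 (1 + x) 1 = (3/2) + (3/2) * (1 + x)⁻¹ + (-9/2) * (2 + x)⁻¹ + 2 * (3 + x)⁻¹ + 2 * (3 + 2 * x)⁻¹ := by
    rw [e1]
    rw [show (2 + 2 * x) = 2 * (1 + x) by ring, mul_inv]
    rw [show (4 + 2 * x) = 2 * (2 + x) by ring, mul_inv]
    ring
  have e3 : SS 2 2 (1 + x) 1 = ((75/2) + 75 * x + 60 * x ^ 2 + (45/2) * x ^ 3 + 3 * x ^ 4) / ((1 + x) * (2 + x) * (3 + x) * (3 + 2 * x)) := by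
    rw [e2]
    field_simp
    ring
  have e4 : (2 : ℝ) / (1 + x) ^ 2 + 2 = (2 + 2 * (1 + x) ^ 2) * ((2 + x) * (3 + x) * (3 + 2 * x)) ^ 2 / ((1 + x) * (2 + x) * (3 + x) * (3 + 2 * x)) ^ 2 := by
    field_simp
  rw [e3, e4, div_pow]
  apply div_le_div_of_nonneg_right _ (by positivity)
  have e5 : ((75/2) + 75 * x + 60 * x ^ 2 + (45/2) * x ^ 3 + 3 * x ^ 4) ^ 2 - (2 + 2 * (1 + x) ^ 2) * ((2 + x) * (3 + x) * (3 + 2 * x)) ^ 2 = (441/4) + 441 * x + 801 * x ^ 2 + (1719/2) * x ^ 3 + 602 * x ^ 4 + 286 * x ^ 5 + (353/4) * x ^ 6 + 15 * x ^ 7 + 1 * x ^ 8 := by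
    ring
  have e6 : 0 ≤ (441/4) + 441 * x + 801 * x ^ 2 + (1719/2) * x ^ 3 + 602 * x ^ 4 + 286 * x ^ 5 + (353/4) * x ^ 6 + 15 * x ^ 7 + 1 * x ^ 8 := by positivity
  rw [← e5] at e6
  linarith

theorem T_3_1 {x : ℝ} (hx : 0 ≤ x) :
    (3 : ℝ) / (1 + x) ^ 2 + 1 ≤ SS 3 1 (1 + x) 1 ^ 2 := by
  have h1_0 : (1 + x) ≠ 0 := by positivity
  have h1_1 : (2 + x) ≠ 0 := by positivity
  have h2_1 : (3 + 2 * x) ≠ 0 := by positivity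
  have h3_1 : (4 + 3 * x) ≠ 0 := by positivity
  have e1 : SS 3 1 (1 + x) 1 = (1) * (1 : ℝ)⁻¹ + (3) * (1 + x)⁻¹ + (-3) * (2 + x)⁻¹ + (-3) * (2 + 2 * x)⁻¹ + (3) * (3 + 2 * x)⁻¹ + (1) * (3 + 3 * x)⁻¹ + (-1) * (4 + 3 * x)⁻¹ := by
    simp only [SS, RR]
    ring
  have e2 : SS 3 1 (1 + x) 1 = 1 + (11/6) * (1 + x)⁻¹ + -3 * (2 + x)⁻¹ + 3 * (3 + 2 * x)⁻¹ + -1 * (4 + 3 * x)⁻¹ := by
    rw [e1]
    rw [show (2 + 2 * x) = 2 * (1 + x) by ring, mul_inv]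
    rw [show (3 + 3 * x) = 3 * (1 + x) by ring, mul_inv]
    ring
  have e3 : SS 3 1 (1 + x) 1 = (50 + (325/3) * x + (535/6) * x ^ 2 + 35 * x ^ 3 + 6 * x ^ 4) / ((1 + x) * (2 + x) * (3 + 2 * x) * (4 + 3 * x)) := by
    rw [e2]
    field_simp
    ring
  have e4 : (3 : ℝ) / (1 + x) ^ 2 + 1 = (3 + 1 * (1 + x) ^ 2) * ((2 + x) * (3 + 2 * x) * (4 + 3 * x)) ^ 2 / ((1 + x) * (2 + x) * (3 + 2 * x) * (4 + 3 * x)) ^ 2 := by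
    field_simp
  rw [e3, e4, div_pow]
  apply div_le_div_of_nonneg_right _ (by positivity)
  have e5 : (50 + (325/3) * x + (535/6) * x ^ 2 + 35 * x ^ 3 + 6 * x ^ 4) ^ 2 - (3 + 1 * (1 + x) ^ 2) * ((2 + x) * (3 + 2 * x) * (4 + 3 * x)) ^ 2 = 196 + (2548/3) * x + (14659/9) * x ^ 2 + (15943/9) * x ^ 3 + (41113/36) * x ^ 4 + (1223/3) * x ^ 5 + 62 * x ^ 6 := by
    ring
  have e6 : 0 ≤ 196 + (2548/3) * x + (14659/9) * x ^ 2 + (15943/9) * x ^ 3 + (41113/36) * x ^ 4 + (1223/3) * x ^ 5 + 62 * x ^ 6 := by positivity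
  rw [← e5] at e6
  linarith

theorem T_1_4 {x : ℝ} (hx : 0 ≤ x) :
    (1 : ℝ) / (1 + x) ^ 2 + 4 ≤ SS 1 4 (1 + x) 1 ^ 2 := by
  have h1_0 : (1 + x) ≠ 0 := by positivity
  have h1_1 : (2 + x) ≠ 0 := by positivity
  have h1_2 : (3 + x) ≠ 0 := by positivity
  have h1_3 : (4 + x) ≠ 0 := by positivity
  have h1_4 : (5 + x) ≠ 0 := by positivity
  have e1 : SS 1 4 (1 + x) 1 = (4) * (1 : ℝ)⁻¹ + (-6) * (2 : ℝ)⁻¹ + (4) * (3 : ℝ)⁻¹ + (-1) * (4 : ℝ)⁻¹ + (1) * (1 + x)⁻¹ + (-4) * (2 + x)⁻¹ + (6) * (3 + x)⁻¹ + (-4) * (4 + x)⁻¹ + (1) * (5 + x)⁻¹ := by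
    simp only [SS, RR]
    ring
  have e2 : SS 1 4 (1 + x) 1 = (25/12) + 1 * (1 + x)⁻¹ + -4 * (2 + x)⁻¹ + 6 * (3 + x)⁻¹ + -4 * (4 + x)⁻¹ + 1 * (5 + x)⁻¹ := by
    rw [e1]
    ring
  have e3 : SS 1 4 (1 + x) 1 = (274 + (3425/6) * x + (1875/4) * x ^ 2 + (2125/12) * x ^ 3 + (125/4) * x ^ 4 + (25/12) * x ^ 5) / ((1 + x) * (2 + x) * (3 + x) * (4 + x) * (5 + x)) := by
    rw [e2]
    field_simp
    ring
  have e4 : (1 : ℝ) / (1 + x) ^ 2 + 4 = (1 + 4 * (1 + x) ^ 2) * ((2 + x) * (3 + x) * (4 + x) * (5 + x)) ^ 2 / ((1 + x) * (2 + x) * (3 + x) * (4 + x) * (5 + x)) ^ 2 := by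
    field_simp
  rw [e3, e4, div_pow]
  apply div_le_div_of_nonneg_right _ (by positivity)
  have e5 : (274 + (3425/6) * x + (1875/4) * x ^ 2 + (2125/12) * x ^ 3 + (125/4) * x ^ 4 + (25/12) * x ^ 5) ^ 2 - (1 + 4 * (1 + x) ^ 2) * ((2 + x) * (3 + x) * (4 + x) * (5 + x)) ^ 2 = 3076 + (38450/3) * x + (923965/36) * x ^ 2 + (386039/12) * x ^ 3 + (3774053/144) * x ^ 4 + (109587/8) * x ^ 5 + (220985/48) * x ^ 6 + (5957/6) * x ^ 7 + (19211/144) * x ^ 8 + (245/24) * x ^ 9 + (49/144) * x ^ 10 := by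
    ring
  have e6 : 0 ≤ 3076 + (38450/3) * x + (923965/36) * x ^ 2 + (386039/12) * x ^ 3 + (3774053/144) * x ^ 4 + (109587/8) * x ^ 5 + (220985/48) * x ^ 6 + (5957/6) * x ^ 7 + (19211/144) * x ^ 8 + (245/24) * x ^ 9 + (49/144) * x ^ 10 := by positivity
  rw [← e5] at e6
  linarith

theorem T_2_3 {x : ℝ} (hx : 0 ≤ x) :
    (2 : ℝ) / (1 + x) ^ 2 + 3 ≤ SS 2 3 (1 + x) 1 ^ 2 := by
  have h1_0 : (1 + x) ≠ 0 := by positivity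
  have h1_1 : (2 + x) ≠ 0 := by positivity
  have h1_2 : (3 + x) ≠ 0 := by positivity
  have h1_3 : (4 + x) ≠ 0 := by positivity
  have h2_1 : (3 + 2 * x) ≠ 0 := by positivity
  have h2_3 : (5 + 2 * x) ≠ 0 := by positivity
  have e1 : SS 2 3 (1 + x) 1 = (3) * (1 : ℝ)⁻¹ + (-3) * (2 : ℝ)⁻¹ + (1) * (3 : ℝ)⁻¹ + (2) * (1 + x)⁻¹ + (-6) * (2 + x)⁻¹ + (6) * (3 + x)⁻¹ + (-2) * (4 + x)⁻¹ + (-1) * (2 + 2 * x)⁻¹ + (3) * (3 + 2 * x)⁻¹ + (-3) * (4 + 2 * x)⁻¹ + (1) * (5 + 2 * x)⁻¹ := by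
    simp only [SS, RR]
    ring
  have e2 : SS 2 3 (1 + x) 1 = (11/6) + (3/2) * (1 + x)⁻¹ + (-15/2) * (2 + x)⁻¹ + 6 * (3 + x)⁻¹ + -2 * (4 + x)⁻¹ + 3 * (3 + 2 * x)⁻¹ + 1 * (5 + 2 * x)⁻¹ := by
    rw [e1]
    rw [show (2 + 2 * x) = 2 * (1 + x) by ring, mul_inv]
    rw [show (4 + 2 * x) = 2 * (2 + x) by ring, mul_inv]
    ring
  have e3 : SS 2 3 (1 + x) 1 = (822 + (4521/2) * x + (7955/3) * x ^ 2 + (5005/3) * x ^ 3 + (1155/2) * x ^ 4 + (308/3) * x ^ 5 + (22/3) * x ^ 6) / ((1 + x) * (2 + x) * (3 + x) * (4 + x) * (3 + 2 * x) * (5 + 2 * x)) := by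
    rw [e2]
    field_simp
    ring
  have e4 : (2 : ℝ) / (1 + x) ^ 2 + 3 = (2 + 3 * (1 + x) ^ 2) * ((2 + x) * (3 + x) * (4 + x) * (3 + 2 * x) * (5 + 2 * x)) ^ 2 / ((1 + x) * (2 + x) * (3 + x) * (4 + x) * (3 + 2 * x) * (5 + 2 * x)) ^ 2 := by
    field_simp
  rw [e3, e4, div_pow]
  apply div_le_div_of_nonneg_right _ (by positivity)
  have e5 : (822 + (4521/2) * x + (7955/3) * x ^ 2 + (5005/3) * x ^ 3 + (1155/2) * x ^ 4 + (308/3) * x ^ 5 + (22/3) * x ^ 6) ^ 2 - (2 + 3 * (1 + x) ^ 2) * ((2 + x) * (3 + x) * (4 + x) * (3 + 2 * x) * (5 + 2 * x)) ^ 2 = 27684 + 152262 * x + (1648561/4) * x ^ 2 + 715009 * x ^ 3 + (7804549/9) * x ^ 4 + (13628039/18) * x ^ 5 + (4295440/9) * x ^ 6 + (1934339/9) * x ^ 7 + (2441045/36) * x ^ 8 + (130832/9) * x ^ 9 + (18094/9) * x ^ 10 + (1456/9) * x ^ 11 + (52/9) * x ^ 12 := by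
    ring
  have e6 : 0 ≤ 27684 + 152262 * x + (1648561/4) * x ^ 2 + 715009 * x ^ 3 + (7804549/9) * x ^ 4 + (13628039/18) * x ^ 5 + (4295440/9) * x ^ 6 + (1934339/9) * x ^ 7 + (2441045/36) * x ^ 8 + (130832/9) * x ^ 9 + (18094/9) * x ^ 10 + (1456/9) * x ^ 11 + (52/9) * x ^ 12 := by positivity
  rw [← e5] at e6
  linarith

theorem T_3_2 {x : ℝ} (hx : 0 ≤ x) :
    (3 : ℝ) / (1 + x) ^ 2 + 2 ≤ SS 3 2 (1 + x) 1 ^ 2 := by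
  have h1_0 : (1 + x) ≠ 0 := by positivity
  have h1_1 : (2 + x) ≠ 0 := by positivity
  have h1_2 : (3 + x) ≠ 0 := by positivity
  have h2_1 : (3 + 2 * x) ≠ 0 := by positivity
  have h3_1 : (4 + 3 * x) ≠ 0 := by positivity
  have h3_2 : (5 + 3 * x) ≠ 0 := by positivity
  have e1 : SS 3 2 (1 + x) 1 = (2) * (1 : ℝ)⁻¹ + (-1) * (2 : ℝ)⁻¹ + (3) * (1 + x)⁻¹ + (-6) * (2 + x)⁻¹ + (3) * (3 + x)⁻¹ + (-3) * (2 + 2 * x)⁻¹ + (6) * (3 + 2 * x)⁻¹ + (-3) * (4 + 2 * x)⁻¹ + (1) * (3 + 3 * x)⁻¹ + (-2) * (4 + 3 * x)⁻¹ + (1) * (5 + 3 * x)⁻¹ := by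
    simp only [SS, RR]
    ring
  have e2 : SS 3 2 (1 + x) 1 = (3/2) + (11/6) * (1 + x)⁻¹ + (-15/2) * (2 + x)⁻¹ + 3 * (3 + x)⁻¹ + 6 * (3 + 2 * x)⁻¹ + -2 * (4 + 3 * x)⁻¹ + 1 * (5 + 3 * x)⁻¹ := by
    rw [e1]
    rw [show (2 + 2 * x) = 2 * (1 + x) by ring, mul_inv]
    rw [show (4 + 2 * x) = 2 * (2 + x) by ring, mul_inv]
    rw [show (3 + 3 * x) = 3 * (1 + x) by ring, mul_inv]
    ring
  have e3 : SS 3 2 (1 + x) 1 = (822 + (5343/2) * x + (22075/6) * x ^ 2 + (8320/3) * x ^ 3 + (2415/2) * x ^ 4 + (567/2) * x ^ 5 + 27 * x ^ 6) / ((1 + x) * (2 + x) * (3 + x) * (3 + 2 * x) * (4 + 3 * x) * (5 + 3 * x)) := by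
    rw [e2]
    field_simp
    ring
  have e4 : (3 : ℝ) / (1 + x) ^ 2 + 2 = (3 + 2 * (1 + x) ^ 2) * ((2 + x) * (3 + x) * (3 + 2 * x) * (4 + 3 * x) * (5 + 3 * x)) ^ 2 / ((1 + x) * (2 + x) * (3 + x) * (3 + 2 * x) * (4 + 3 * x) * (5 + 3 * x)) ^ 2 := by
    field_simp
  rw [e3, e4, div_pow]
  apply div_le_div_of_nonneg_right _ (by positivity)
  have e5 : (822 + (5343/2) * x + (22075/6) * x ^ 2 + (8320/3) * x ^ 3 + (2415/2) * x ^ 4 + (567/2) * x ^ 5 + 27 * x ^ 6) ^ 2 - (3 + 2 * (1 + x) ^ 2) * ((2 + x) * (3 + x) * (3 + 2 * x) * (4 + 3 * x) * (5 + 3 * x)) ^ 2 = 27684 + 179946 * x + (2257609/4) * x ^ 2 + (2244927/2) * x ^ 3 + (56115085/36) * x ^ 4 + (28368677/18) * x ^ 5 + (10637692/9) * x ^ 6 + (1319705/2) * x ^ 7 + (1083049/4) * x ^ 8 + (157689/2) * x ^ 9 + (60813/4) * x ^ 10 + 1701 * x ^ 11 + 81 * x ^ 12 := by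
    ring
  have e6 : 0 ≤ 27684 + 179946 * x + (2257609/4) * x ^ 2 + (2244927/2) * x ^ 3 + (56115085/36) * x ^ 4 + (28368677/18) * x ^ 5 + (10637692/9) * x ^ 6 + (1319705/2) * x ^ 7 + (1083049/4) * x ^ 8 + (157689/2) * x ^ 9 + (60813/4) * x ^ 10 + 1701 * x ^ 11 + 81 * x ^ 12 := by positivity
  rw [← e5] at e6
  linarith

theorem T_4_1 {x : ℝ} (hx : 0 ≤ x) :
    (4 : ℝ) / (1 + x) ^ 2 + 1 ≤ SS 4 1 (1 + x) 1 ^ 2 := by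
  have h1_0 : (1 + x) ≠ 0 := by positivity
  have h1_1 : (2 + x) ≠ 0 := by positivity
  have h2_1 : (3 + 2 * x) ≠ 0 := by positivity
  have h3_1 : (4 + 3 * x) ≠ 0 := by positivity
  have h4_1 : (5 + 4 * x) ≠ 0 := by positivity
  have e1 : SS 4 1 (1 + x) 1 = (1) * (1 : ℝ)⁻¹ + (4) * (1 + x)⁻¹ + (-4) * (2 + x)⁻¹ + (-6) * (2 + 2 * x)⁻¹ + (6) * (3 + 2 * x)⁻¹ + (4) * (3 + 3 * x)⁻¹ + (-4) * (4 + 3 * x)⁻¹ + (-1) * (4 + 4 * x)⁻¹ + (1) * (5 + 4 * x)⁻¹ := by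
    simp only [SS, RR]
    ring
  have e2 : SS 4 1 (1 + x) 1 = 1 + (25/12) * (1 + x)⁻¹ + -4 * (2 + x)⁻¹ + 6 * (3 + 2 * x)⁻¹ + -4 * (4 + 3 * x)⁻¹ + 1 * (5 + 4 * x)⁻¹ := by
    rw [e1]
    rw [show (2 + 2 * x) = 2 * (1 + x) by ring, mul_inv]
    rw [show (3 + 3 * x) = 3 * (1 + x) by ring, mul_inv]
    rw [show (4 + 4 * x) = 4 * (1 + x) by ring, mul_inv]
    ring
  have e3 : SS 4 1 (1 + x) 1 = (274 + (4795/6) * x + (11105/12) * x ^ 2 + (3265/6) * x ^ 3 + 170 * x ^ 4 + 24 * x ^ 5) / ((1 + x) * (2 + x) * (3 + 2 * x) * (4 + 3 * x) * (5 + 4 * x)) := by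
    rw [e2]
    field_simp
    ring
  have e4 : (4 : ℝ) / (1 + x) ^ 2 + 1 = (4 + 1 * (1 + x) ^ 2) * ((2 + x) * (3 + 2 * x) * (4 + 3 * x) * (5 + 4 * x)) ^ 2 / ((1 + x) * (2 + x) * (3 + 2 * x) * (4 + 3 * x) * (5 + 4 * x)) ^ 2 := by
    field_simp
  rw [e3, e4, div_pow]
  apply div_le_div_of_nonneg_right _ (by positivity)
  have e5 : (274 + (4795/6) * x + (11105/12) * x ^ 2 + (3265/6) * x ^ 3 + 170 * x ^ 4 + 24 * x ^ 5) ^ 2 - (4 + 1 * (1 + x) ^ 2) * ((2 + x) * (3 + 2 * x) * (4 + 3 * x) * (5 + 4 * x)) ^ 2 = 3076 + (53830/3) * x + (1754485/36) * x ^ 2 + (2911523/36) * x ^ 3 + (4272899/48) * x ^ 4 + (2358593/36) * x ^ 5 + (1114345/36) * x ^ 6 + (25394/3) * x ^ 7 + 1016 * x ^ 8 := by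
    ring
  have e6 : 0 ≤ 3076 + (53830/3) * x + (1754485/36) * x ^ 2 + (2911523/36) * x ^ 3 + (4272899/48) * x ^ 4 + (2358593/36) * x ^ 5 + (1114345/36) * x ^ 6 + (25394/3) * x ^ 7 + 1016 * x ^ 8 := by positivity
  rw [← e5] at e6
  linarith

theorem T_1_5 {x : ℝ} (hx : 0 ≤ x) :
    (1 : ℝ) / (1 + x) ^ 2 + 5 ≤ SS 1 5 (1 + x) 1 ^ 2 := by
  have h1_0 : (1 + x) ≠ 0 := by positivity
  have h1_1 : (2 + x) ≠ 0 := by positivity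
  have h1_2 : (3 + x) ≠ 0 := by positivity
  have h1_3 : (4 + x) ≠ 0 := by positivity
  have h1_4 : (5 + x) ≠ 0 := by positivity
  have h1_5 : (6 + x) ≠ 0 := by positivity
  have e1 : SS 1 5 (1 + x) 1 = (5) * (1 : ℝ)⁻¹ + (-10) * (2 : ℝ)⁻¹ + (10) * (3 : ℝ)⁻¹ + (-5) * (4 : ℝ)⁻¹ + (1) * (5 : ℝ)⁻¹ + (1) * (1 + x)⁻¹ + (-5) * (2 + x)⁻¹ + (10) * (3 + x)⁻¹ + (-10) * (4 + x)⁻¹ + (5) * (5 + x)⁻¹ + (-1) * (6 + x)⁻¹ := by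
    simp only [SS, RR]
    ring
  have e2 : SS 1 5 (1 + x) 1 = (137/60) + 1 * (1 + x)⁻¹ + -5 * (2 + x)⁻¹ + 10 * (3 + x)⁻¹ + -10 * (4 + x)⁻¹ + 5 * (5 + x)⁻¹ + -1 * (6 + x)⁻¹ := by
    rw [e1]
    ring
  have e3 : SS 1 5 (1 + x) 1 = (1764 + (20139/5) * x + (55622/15) * x ^ 2 + (6713/4) * x ^ 3 + (4795/12) * x ^ 4 + (959/20) * x ^ 5 + (137/60) * x ^ 6) / ((1 + x) * (2 + x) * (3 + x) * (4 + x) * (5 + x) * (6 + x)) := by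
    rw [e2]
    field_simp
    ring
  have e4 : (1 : ℝ) / (1 + x) ^ 2 + 5 = (1 + 5 * (1 + x) ^ 2) * ((2 + x) * (3 + x) * (4 + x) * (5 + x) * (6 + x)) ^ 2 / ((1 + x) * (2 + x) * (3 + x) * (4 + x) * (5 + x) * (6 + x)) ^ 2 := by
    field_simp
  rw [e3, e4, div_pow]
  apply div_le_div_of_nonneg_right _ (by positivity)
  have e5 : (1764 + (20139/5) * x + (55622/15) * x ^ 2 + (6713/4) * x ^ 3 + (4795/12) * x ^ 4 + (959/20) * x ^ 5 + (137/60) * x ^ 6) ^ 2 - (1 + 5 * (1 + x) ^ 2) * ((2 + x) * (3 + x) * (4 + x) * (5 + x) * (6 + x)) ^ 2 = 1296 + (29592/5) * x + (3226281/25) * x ^ 2 + (10462622/25) * x ^ 3 + (260178083/450) * x ^ 4 + (13104019/30) * x ^ 5 + (735059657/3600) * x ^ 6 + (12583013/200) * x ^ 7 + (15743789/1200) * x ^ 8 + (36881/20) * x ^ 9 + (604679/3600) * x ^ 10 + (5383/600) * x ^ 11 + (769/3600) * x ^ 12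 := by
    ring
  have e6 : 0 ≤ 1296 + (29592/5) * x + (3226281/25) * x ^ 2 + (10462622/25) * x ^ 3 + (260178083/450) * x ^ 4 + (13104019/30) * x ^ 5 + (735059657/3600) * x ^ 6 + (12583013/200) * x ^ 7 + (15743789/1200) * x ^ 8 + (36881/20) * x ^ 9 + (604679/3600) * x ^ 10 + (5383/600) * x ^ 11 + (769/3600) * x ^ 12 := by positivity
  rw [← e5] at e6
  linarith

theorem T_2_4 {x : ℝ} (hx : 0 ≤ x) :
    (2 : ℝ) / (1 + x) ^ 2 + 4 ≤ SS 2 4 (1 + x) 1 ^ 2 := by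
  have h1_0 : (1 + x) ≠ 0 := by positivity
  have h1_1 : (2 + x) ≠ 0 := by positivity
  have h1_2 : (3 + x) ≠ 0 := by positivity
  have h1_3 : (4 + x) ≠ 0 := by positivity
  have h1_4 : (5 + x) ≠ 0 := by positivity
  have h2_1 : (3 + 2 * x) ≠ 0 := by positivity
  have h2_3 : (5 + 2 * x) ≠ 0 := by positivity
  have e1 : SS 2 4 (1 + x) 1 = (4) * (1 : ℝ)⁻¹ + (-6) * (2 : ℝ)⁻¹ + (4) * (3 : ℝ)⁻¹ + (-1) * (4 : ℝ)⁻¹ + (2) * (1 + x)⁻¹ + (-8) * (2 + x)⁻¹ + (12) * (3 + x)⁻¹ + (-8) * (4 + x)⁻¹ + (2) * (5 + x)⁻¹ + (-1) * (2 + 2 * x)⁻¹ + (4) * (3 + 2 * x)⁻¹ + (-6) * (4 + 2 * x)⁻¹ + (4) * (5 + 2 * x)⁻¹ + (-1) * (6 + 2 * x)⁻¹ := by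
    simp only [SS, RR]
    ring
  have e2 : SS 2 4 (1 + x) 1 = (25/12) + (3/2) * (1 + x)⁻¹ + -11 * (2 + x)⁻¹ + (23/2) * (3 + x)⁻¹ + -8 * (4 + x)⁻¹ + 2 * (5 + x)⁻¹ + 4 * (3 + 2 * x)⁻¹ + 4 * (5 + 2 * x)⁻¹ := by
    rw [e1]
    rw [show (2 + 2 * x) = 2 * (1 + x) by ring, mul_inv]
    rw [show (4 + 2 * x) = 2 * (2 + x) by ring, mul_inv]
    rw [show (6 + 2 * x) = 2 * (3 + x) by ring, mul_inv]
    ring
  have e3 : SS 2 4 (1 + x) 1 = (4410 + (26607/2) * x + (208243/12) * x ^ 2 + (149275/12) * x ^ 3 + (62125/12) * x ^ 4 + (14875/12) * x ^ 5 + (475/3) * x ^ 6 + (25/3) * x ^ 7) / ((1 + x) * (2 + x) * (3 + x) * (4 + x) * (5 + x) * (3 + 2 * x) * (5 + 2 * x)) := by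
    rw [e2]
    field_simp
    ring
  have e4 : (2 : ℝ) / (1 + x) ^ 2 + 4 = (2 + 4 * (1 + x) ^ 2) * ((2 + x) * (3 + x) * (4 + x) * (5 + x) * (3 + 2 * x) * (5 + 2 * x)) ^ 2 / ((1 + x) * (2 + x) * (3 + x) * (4 + x) * (5 + x) * (3 + 2 * x) * (5 + 2 * x)) ^ 2 := by
    field_simp
  rw [e3, e4, div_pow]
  apply div_le_div_of_nonneg_right _ (by positivity)
  have e5 : (4410 + (26607/2) * x + (208243/12) * x ^ 2 + (149275/12) * x ^ 3 + (62125/12) * x ^ 4 + (14875/12) * x ^ 5 + (475/3) * x ^ 6 + (25/3) * x ^ 7) ^ 2 - (2 + 4 * (1 + x) ^ 2) * ((2 + x) * (3 + x) * (4 + x) * (5 + x) * (3 + 2 * x) * (5 + 2 * x)) ^ 2 = 8100 + 48870 * x + (5223669/4) * x ^ 2 + (24213907/4) * x ^ 3 + (1919865205/144) * x ^ 4 + (1266287707/72) * x ^ 5 + (732987905/48) * x ^ 6 + (82246351/9) * x ^ 7 + (555498515/144) * x ^ 8 + (27807557/24) * x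 ^ 9 + (35498153/144) * x ^ 10 + (327487/9) * x ^ 11 + (21319/6) * x ^ 12 + (1862/9) * x ^ 13 + (49/9) * x ^ 14 := by
    ring
  have e6 : 0 ≤ 8100 + 48870 * x + (5223669/4) * x ^ 2 + (24213907/4) * x ^ 3 + (1919865205/144) * x ^ 4 + (1266287707/72) * x ^ 5 + (732987905/48) * x ^ 6 + (82246351/9) * x ^ 7 + (555498515/144) * x ^ 8 + (27807557/24) * x ^ 9 + (35498153/144) * x ^ 10 + (327487/9) * x ^ 11 + (21319/6) * x ^ 12 + (1862/9) * x ^ 13 + (49/9) * x ^ 14 := by positivity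
  rw [← e5] at e6
  linarith

theorem T_3_3 {x : ℝ} (hx : 0 ≤ x) :
    (3 : ℝ) / (1 + x) ^ 2 + 3 ≤ SS 3 3 (1 + x) 1 ^ 2 := by
  have h1_0 : (1 + x) ≠ 0 := by positivity
  have h1_1 : (2 + x) ≠ 0 := by positivity
  have h1_2 : (3 + x) ≠ 0 := by positivity
  have h1_3 : (4 + x) ≠ 0 := by positivity
  have h2_1 : (3 + 2 * x) ≠ 0 := by positivity
  have h2_3 : (5 + 2 * x) ≠ 0 := by positivity
  have h3_1 : (4 + 3 * x) ≠ 0 := by positivity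
  have h3_2 : (5 + 3 * x) ≠ 0 := by positivity
  have e1 : SS 3 3 (1 + x) 1 = (3) * (1 : ℝ)⁻¹ + (-3) * (2 : ℝ)⁻¹ + (1) * (3 : ℝ)⁻¹ + (3) * (1 + x)⁻¹ + (-9) * (2 + x)⁻¹ + (9) * (3 + x)⁻¹ + (-3) * (4 + x)⁻¹ + (-3) * (2 + 2 * x)⁻¹ + (9) * (3 + 2 * x)⁻¹ + (-9) * (4 + 2 * x)⁻¹ + (3) * (5 + 2 * x)⁻¹ + (1) * (3 + 3 * x)⁻¹ + (-3) * (4 + 3 * x)⁻¹ + (3) * (5 + 3 * x)⁻¹ + (-1) * (6 + 3 * x)⁻¹ := by
    simp only [SS, RR]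
    ring
  have e2 : SS 3 3 (1 + x) 1 = (11/6) + (11/6) * (1 + x)⁻¹ + (-83/6) * (2 + x)⁻¹ + 9 * (3 + x)⁻¹ + -3 * (4 + x)⁻¹ + 9 * (3 + 2 * x)⁻¹ + 3 * (5 + 2 * x)⁻¹ + -3 * (4 + 3 * x)⁻¹ + 3 * (5 + 3 * x)⁻¹ := by
    rw [e1]
    rw [show (2 + 2 * x) = 2 * (1 + x) by ring, mul_inv]
    rw [show (4 + 2 * x) = 2 * (2 + x) by ring, mul_inv]
    rw [show (3 + 3 * x) = 3 * (1 + x) by ring, mul_inv]
    rw [show (6 + 3 * x) = 3 * (2 + x) by ring, mul_inv]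
    ring
  have e3 : SS 3 3 (1 + x) 1 = (17640 + 70560 * x + (249025/2) * x ^ 2 + (253155/2) * x ^ 3 + (241955/3) * x ^ 4 + (195965/6) * x ^ 5 + (48697/6) * x ^ 6 + 1122 * x ^ 7 + 66 * x ^ 8) / ((1 + x) * (2 + x) * (3 + x) * (4 + x) * (3 + 2 * x) * (5 + 2 * x) * (4 + 3 * x) * (5 + 3 * x)) := by
    rw [e2]
    field_simp
    ring
  have e4 : (3 : ℝ) / (1 + x) ^ 2 + 3 = (3 + 3 * (1 + x) ^ 2) * ((2 + x) * (3 + x) * (4 + x) * (3 + 2 * x) * (5 + 2 * x) * (4 + 3 * x) * (5 + 3 * x)) ^ 2 / ((1 + x) * (2 + x) * (3 + x) * (4 + x) * (3 + 2 * x) * (5 + 2 * x) * (4 + 3 * x) * (5 + 3 * x)) ^ 2 := by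
    field_simp
  rw [e3, e4, div_pow]
  apply div_le_div_of_nonneg_right _ (by positivity)
  have e5 : (17640 + 70560 * x + (249025/2) * x ^ 2 + (253155/2) * x ^ 3 + (241955/3) * x ^ 4 + (195965/6) * x ^ 5 + (48697/6) * x ^ 6 + 1122 * x ^ 7 + 66 * x ^ 8) ^ 2 - (3 + 3 * (1 + x) ^ 2) * ((2 + x) * (3 + x) * (4 + x) * (3 + 2 * x) * (5 + 2 * x) * (4 + 3 * x) * (5 + 3 * x)) ^ 2 = 129600 + 1036800 * x + 24935400 * x ^ 2 + 156403800 * x ^ 3 + (1966077409/4) * x ^ 4 + (1926082227/2) * x ^ 5 + (15577789583/12) * x ^ 6 + (7601644115/6) * x ^ 7 + (8276343730/9) * x ^ 8 + (9042557843/18) * x ^ 9 + (827081949/4) * x ^ 10 + (1144547597/18) * x ^ 11 + (516237709/36) * x ^ 12 + 2295508 * x ^ 13 + 246466 * x ^ 14 + 15912 * x ^ 15 + 468 * x ^ 16 := by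
    ring
  have e6 : 0 ≤ 129600 + 1036800 * x + 24935400 * x ^ 2 + 156403800 * x ^ 3 + (1966077409/4) * x ^ 4 + (1926082227/2) * x ^ 5 + (15577789583/12) * x ^ 6 + (7601644115/6) * x ^ 7 + (8276343730/9) * x ^ 8 + (9042557843/18) * x ^ 9 + (827081949/4) * x ^ 10 + (1144547597/18) * x ^ 11 + (516237709/36) * x ^ 12 + 2295508 * x ^ 13 + 246466 * x ^ 14 + 15912 * x ^ 15 + 468 * x ^ 16 := by positivity
  rw [← e5] at e6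
  linarith

theorem T_4_2 {x : ℝ} (hx : 0 ≤ x) :
    (4 : ℝ) / (1 + x) ^ 2 + 2 ≤ SS 4 2 (1 + x) 1 ^ 2 := by
  have h1_0 : (1 + x) ≠ 0 := by positivity
  have h1_1 : (2 + x) ≠ 0 := by positivity
  have h1_2 : (3 + x) ≠ 0 := by positivity
  have h2_1 : (3 + 2 * x) ≠ 0 := by positivity
  have h3_1 : (4 + 3 * x) ≠ 0 := by positivity
  have h3_2 : (5 + 3 * x) ≠ 0 := by positivity
  have h4_1 : (5 + 4 * x) ≠ 0 := by positivity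
  have e1 : SS 4 2 (1 + x) 1 = (2) * (1 : ℝ)⁻¹ + (-1) * (2 : ℝ)⁻¹ + (4) * (1 + x)⁻¹ + (-8) * (2 + x)⁻¹ + (4) * (3 + x)⁻¹ + (-6) * (2 + 2 * x)⁻¹ + (12) * (3 + 2 * x)⁻¹ + (-6) * (4 + 2 * x)⁻¹ + (4) * (3 + 3 * x)⁻¹ + (-8) * (4 + 3 * x)⁻¹ + (4) * (5 + 3 * x)⁻¹ + (-1) * (4 + 4 * x)⁻¹ + (2) * (5 + 4 * x)⁻¹ + (-1) * (6 + 4 * x)⁻¹ := by
    simp only [SS, RR]
    ring
  have e2 : SS 4 2 (1 + x) 1 = (3/2) + (25/12) * (1 + x)⁻¹ + -11 * (2 + x)⁻¹ + 4 * (3 + x)⁻¹ + (23/2) * (3 + 2 * x)⁻¹ + -8 * (4 + 3 * x)⁻¹ + 4 * (5 + 3 * x)⁻¹ + 2 * (5 + 4 * x)⁻¹ := by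
    rw [e1]
    rw [show (2 + 2 * x) = 2 * (1 + x) by ring, mul_inv]
    rw [show (4 + 2 * x) = 2 * (2 + x) by ring, mul_inv]
    rw [show (3 + 3 * x) = 3 * (1 + x) by ring, mul_inv]
    rw [show (4 + 4 * x) = 4 * (1 + x) by ring, mul_inv]
    rw [show (6 + 4 * x) = 2 * (3 + 2 * x) by ring, mul_inv]
    ring
  have e3 : SS 4 2 (1 + x) 1 = (4410 + (35133/2) * x + (361711/12) * x ^ 2 + (174755/6) * x ^ 3 + (206815/12) * x ^ 4 + (12495/2) * x ^ 5 + 1269 * x ^ 6 + 108 * x ^ 7) / ((1 + x) * (2 + x) * (3 + x) * (3 + 2 * x) * (4 + 3 * x) * (5 + 3 * x) * (5 + 4 * x)) := by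
    rw [e2]
    field_simp
    ring
  have e4 : (4 : ℝ) / (1 + x) ^ 2 + 2 = (4 + 2 * (1 + x) ^ 2) * ((2 + x) * (3 + x) * (3 + 2 * x) * (4 + 3 * x) * (5 + 3 * x) * (5 + 4 * x)) ^ 2 / ((1 + x) * (2 + x) * (3 + x) * (3 + 2 * x) * (4 + 3 * x) * (5 + 3 * x) * (5 + 4 * x)) ^ 2 := by
    field_simp
  rw [e3, e4, div_pow]
  apply div_le_div_of_nonneg_right _ (by positivity)
  have e5 : (4410 + (35133/2) * x + (361711/12) * x ^ 2 + (174755/6) * x ^ 3 + (206815/12) * x ^ 4 + (12495/2) * x ^ 5 + 1269 * x ^ 6 + 108 * x ^ 7) ^ 2 - (4 + 2 * (1 + x) ^ 2) * ((2 + x) * (3 + x) * (3 + 2 * x) * (4 + 3 * x) * (5 + 3 * x) * (5 + 4 * x)) ^ 2 = 8100 + 64530 * x + (5630829/4) * x ^ 2 + (35016281/4) * x ^ 3 + (3897499897/144) * x ^ 4 + (924684607/18) * x ^ 5 + (1583435509/24) * x ^ 6 + (543126593/9) * x ^ 7 + (5811400609/144) * x ^ 8 +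 (79571447/4) * x ^ 9 + (28636699/4) * x ^ 10 + 1823121 * x ^ 11 + 308133 * x ^ 12 + 30456 * x ^ 13 + 1296 * x ^ 14 := by
    ring
  have e6 : 0 ≤ 8100 + 64530 * x + (5630829/4) * x ^ 2 + (35016281/4) * x ^ 3 + (3897499897/144) * x ^ 4 + (924684607/18) * x ^ 5 + (1583435509/24) * x ^ 6 + (543126593/9) * x ^ 7 + (5811400609/144) * x ^ 8 + (79571447/4) * x ^ 9 + (28636699/4) * x ^ 10 + 1823121 * x ^ 11 + 308133 * x ^ 12 + 30456 * x ^ 13 + 1296 * x ^ 14 := by positivity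
  rw [← e5] at e6
  linarith

theorem T_5_1 {x : ℝ} (hx : 0 ≤ x) :
    (5 : ℝ) / (1 + x) ^ 2 + 1 ≤ SS 5 1 (1 + x) 1 ^ 2 := by
  have h1_0 : (1 + x) ≠ 0 := by positivity
  have h1_1 : (2 + x) ≠ 0 := by positivity
  have h2_1 : (3 + 2 * x) ≠ 0 := by positivity
  have h3_1 : (4 + 3 * x) ≠ 0 := by positivity
  have h4_1 : (5 + 4 * x) ≠ 0 := by positivity
  have h5_1 : (6 + 5 * x) ≠ 0 := by positivity
  have e1 : SS 5 1 (1 + x) 1 = (1) * (1 : ℝ)⁻¹ + (5) * (1 + x)⁻¹ + (-5) * (2 + x)⁻¹ + (-10) * (2 + 2 * x)⁻¹ + (10) * (3 + 2 * x)⁻¹ + (10) * (3 + 3 * x)⁻¹ + (-10) * (4 + 3 * x)⁻¹ + (-5) * (4 + 4 * x)⁻¹ + (5) * (5 + 4 * x)⁻¹ + (1) * (5 + 5 * x)⁻¹ + (-1) * (6 + 5 * x)⁻¹ := by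
    simp only [SS, RR]
    ring
  have e2 : SS 5 1 (1 + x) 1 = 1 + (137/60) * (1 + x)⁻¹ + -5 * (2 + x)⁻¹ + 10 * (3 + 2 * x)⁻¹ + -10 * (4 + 3 * x)⁻¹ + 5 * (5 + 4 * x)⁻¹ + -1 * (6 + 5 * x)⁻¹ := by
    rw [e1]
    rw [show (2 + 2 * x) = 2 * (1 + x) by ring, mul_inv]
    rw [show (3 + 3 * x) = 3 * (1 + x) by ring, mul_inv]
    rw [show (4 + 4 * x) = 4 * (1 + x) by ring, mul_inv]
    rw [show (5 + 5 * x) = 5 * (1 + x) by ring, mul_inv]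
    ring
  have e3 : SS 5 1 (1 + x) 1 = (1764 + (32781/5) * x + (150437/15) * x ^ 2 + (489377/60) * x ^ 3 + (113869/30) * x ^ 4 + 994 * x ^ 5 + 120 * x ^ 6) / ((1 + x) * (2 + x) * (3 + 2 * x) * (4 + 3 * x) * (5 + 4 * x) * (6 + 5 * x)) := by
    rw [e2]
    field_simp
    ring
  have e4 : (5 : ℝ) / (1 + x) ^ 2 + 1 = (5 + 1 * (1 + x) ^ 2) * ((2 + x) * (3 + 2 * x) * (4 + 3 * x) * (5 + 4 * x) * (6 + 5 * x)) ^ 2 / ((1 + x) * (2 + x) * (3 + 2 * x) * (4 + 3 * x) * (5 + 4 * x) * (6 + 5 * x)) ^ 2 := by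
    field_simp
  rw [e3, e4, div_pow]
  apply div_le_div_of_nonneg_right _ (by positivity)
  have e5 : (1764 + (32781/5) * x + (150437/15) * x ^ 2 + (489377/60) * x ^ 3 + (113869/30) * x ^ 4 + 994 * x ^ 5 + 120 * x ^ 6) ^ 2 - (5 + 1 * (1 + x) ^ 2) * ((2 + x) * (3 + 2 * x) * (4 + 3 * x) * (5 + 4 * x) * (6 + 5 * x)) ^ 2 = 1296 + (48168/5) * x + (3737121/25) * x ^ 2 + (20790388/25) * x ^ 3 + (1027763729/450) * x ^ 4 + (1656864283/450) * x ^ 5 + (1497996393/400) * x ^ 6 + (2203665173/900) * x ^ 7 + (902709601/900) * x ^ 8 + (3527506/15) * x ^ 9 + 24152 * x ^ 10 := by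
    ring
  have e6 : 0 ≤ 1296 + (48168/5) * x + (3737121/25) * x ^ 2 + (20790388/25) * x ^ 3 + (1027763729/450) * x ^ 4 + (1656864283/450) * x ^ 5 + (1497996393/400) * x ^ 6 + (2203665173/900) * x ^ 7 + (902709601/900) * x ^ 8 + (3527506/15) * x ^ 9 + 24152 * x ^ 10 := by positivity
  rw [← e5] at e6
  linarith

theorem T_0_0 (x : ℝ) : (0 : ℝ) ≤ SS 0 0 x 1 ^ 2 := by
  simp only [SS, RR]
  norm_num

theorem T_0_1 (x : ℝ) : (1 : ℝ) ≤ SS 0 1 x 1 ^ 2 := by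
  simp only [SS, RR]
  norm_num

theorem T_0_2 (x : ℝ) : (2 : ℝ) ≤ SS 0 2 x 1 ^ 2 := by
  simp only [SS, RR]
  norm_num

theorem T_0_3 (x : ℝ) : (3 : ℝ) ≤ SS 0 3 x 1 ^ 2 := by
  simp only [SS, RR]
  norm_num

theorem T_0_4 (x : ℝ) : (4 : ℝ) ≤ SS 0 4 x 1 ^ 2 := by
  simp only [SS, RR]
  norm_num

theorem T_0_5 (x : ℝ) : (5 : ℝ) ≤ SS 0 5 x 1 ^ 2 := by
  simp only [SS, RR]
  norm_num

theorem T_0_6 (x : ℝ) : (6 : ℝ) ≤ SS 0 6 x 1 ^ 2 := by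
  simp only [SS, RR]
  norm_num

/-- All the two-value inequalities together. -/
theorem two_val {k l : ℕ} (hkl : k + l ≤ 6) {x : ℝ} (hx : 0 ≤ x) :
    (k : ℝ) / (1 + x) ^ 2 + l ≤ SS k l (1 + x) 1 ^ 2 ∨ l = 0 := by
  have hk : k ≤ 6 := by omega
  have hl : l ≤ 6 := by omega
  interval_cases k <;> interval_cases l <;> first
    | (right; rfl)
    | (exfalso; omega)
    | skip
  · left
    have := T_0_1 (1 + x)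
    simpa using this
  · left
    have := T_0_2 (1 + x)
    simpa using this
  · left
    have := T_0_3 (1 + x)
    simpa using this
  · left
    have := T_0_4 (1 + x)
    simpa using this
  · left
    have := T_0_5 (1 + x)
    simpa using this
  · left
    have := T_0_6 (1 + x)
    simpa using this
  · left
    have := T_1_1 hx
    norm_num at this ⊢
    exact this
  · left
    have := T_1_2 hx
    norm_num at this ⊢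
    exact this
  · left
    have := T_1_3 hx
    norm_num at this ⊢
    exact this
  · left
    have := T_1_4 hx
    norm_num at this ⊢
    exact this
  · left
    have := T_1_5 hx
    norm_num at this ⊢
    exact this
  · left
    have := T_2_1 hx
    norm_num at this ⊢
    exact this
  · left
    have := T_2_2 hx
    norm_num at this ⊢
    exact this
  · left
    have := T_2_3 hx
    norm_num at this ⊢
    exact this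
  · left
    have := T_2_4 hx
    norm_num at this ⊢
    exact this
  · left
    have := T_3_1 hx
    norm_num at this ⊢
    exact this
  · left
    have := T_3_2 hx
    norm_num at this ⊢
    exact this
  · left
    have := T_3_3 hx
    norm_num at this ⊢
    exact this
  · left
    have := T_4_1 hx
    norm_num at this ⊢
    exact this
  · left
    have := T_4_2 hx
    norm_num at this ⊢
    exact this
  · left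
    have := T_5_1 hx
    norm_num at this ⊢
    exact this

end Pool.Agent.Q259.MaxExp
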