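import Pool.Agent.Q259.MaxExp.Gfun
import Pool.Agent.Q259.MaxExp.TwoVal

/-! The inequality `∑ u_i ≤ N(u)²` for at most six variables. -/

open Finset Set Filter Topology

set_option linter.unusedSectionVars false

namespace Pool.Agent.Q259.MaxExp

variable {ι : Type*} [DecidableEq ι]

/-- The parameters `a_i = u_i^(-1/2)`. -/
noncomputable def av (u : ι → ℝ) : ι → ℝ := fun i => (Real.sqrt (u i))⁻¹

/-- `N(u) = S(u^(-1/2))`. -/
noncomputable def N (s : Finset ι) (u : ι → ℝ) : ℝ := S s (av u)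

theorem av_pos {u : ι → ℝ} {i : ι} (hi : 0 < u i) : 0 < av u i := inv_pos.2 (Real.sqrt_pos.2 hi)

theorem N_smul (s : Finset ι) (u : ι → ℝ) {c : ℝ} (hc : 0 < c) :
    N s (fun i => c * u i) = Real.sqrt c * N s u := by
  have : av (fun i => c * u i) = fun i => (Real.sqrt c)⁻¹ * av u i := by
    funext i
    rw [av, av, Real.sqrt_mul hc.le, mul_inv]
  rw [N, this, S_smul, inv_inv, N]

theorem R_hasDerivAt {s : Finset ι} {a : ι → ℝ} (ha : ∀ i ∈ s, 0 < a i) {c : ℝ} (hc : 0 < c) :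
    HasDerivAt (R s a) (-R2 s a c) c := by
  unfold R
  have h : ∀ J ∈ s.powerset, HasDerivAt (fun c : ℝ => (-1 : ℝ) ^ J.card * (c + ∑ j ∈ J, a j)⁻¹)
      (-((-1) ^ J.card * ((c + ∑ j ∈ J, a j) ^ 2)⁻¹)) c := by
    intro J hJ
    have h0 : 0 ≤ ∑ j ∈ J, a j := sum_nonneg fun j hj => (ha j (Finset.mem_powerset.1 hJ hj)).le
    have h1 : HasDerivAt (fun c : ℝ => c + ∑ j ∈ J, a j) 1 c := (hasDerivAt_id c).add_const _
    have h2 := (h1.fun_inv (by positivity)).const_mul ((-1 : ℝ) ^ J.card)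
    refine h2.congr_deriv ?_
    rw [div_eq_mul_inv]; ring
  have := HasDerivAt.fun_sum h
  refine this.congr_deriv ?_
  rw [R2, sum_neg_distrib]

/-- Direction `e_i - e_j`. -/
noncomputable def dir (i j : ι) (u : ι → ℝ) (τ : ℝ) : ι → ℝ :=
  fun k => u k + τ * ((if k = i then 1 else 0) - (if k = j then 1 else 0))

theorem dir_i {i j : ι} (hij : i ≠ j) (u : ι → ℝ) (τ : ℝ) : dir i j u τ i = u i + τ := by
  simp [dir, hij]

theorem dir_j {i j : ι} (hij : i ≠ j) (u : ι → ℝ) (τ : ℝ) : dir i j u τ j = u j - τ := by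
  simp [dir, hij.symm, sub_eq_add_neg]

theorem dir_k {i j k : ι} (hi : k ≠ i) (hj : k ≠ j) (u : ι → ℝ) (τ : ℝ) :
    dir i j u τ k = u k := by
  simp [dir, hi, hj]

theorem sqrt_inv_deriv {p : ℝ} (hp : 0 < p) (σ : ℝ) :
    HasDerivAt (fun τ : ℝ => (Real.sqrt (p + σ * τ))⁻¹) (-(σ / 2) * ((Real.sqrt p)⁻¹) ^ 3) 0 := by
  have h1 : HasDerivAt (fun τ : ℝ => p + σ * τ) (σ * 1) 0 :=
    ((hasDerivAt_id (0 : ℝ)).const_mul σ).const_add p
  have h2 := h1.sqrt (by simpa using hp.ne')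
  have h3 := h2.fun_inv (by
    simp only [mul_zero, add_zero]
    exact (Real.sqrt_pos.2 hp).ne')
  refine h3.congr_deriv ?_
  simp only [mul_zero, add_zero, mul_one]
  have := (Real.sqrt_pos.2 hp).ne'
  field_simp

theorem split_set {s : Finset ι} {i j : ι} (hi : i ∈ s) (hj : j ∈ s) (hij : i ≠ j) :
    s.erase i = insert j ((s.erase i).erase j) ∧ s.erase j = insert i ((s.erase i).erase j) ∧
      s = insert i (insert j ((s.erase i).erase j)) := by
  have h1 : j ∈ s.erase i := Finset.mem_erase.2 ⟨hij.symm, hj⟩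
  have h2 : i ∈ s.erase j := Finset.mem_erase.2 ⟨hij, hi⟩
  refine ⟨(Finset.insert_erase h1).symm, ?_, ?_⟩
  · rw [Finset.erase_right_comm, Finset.insert_erase h2]
  · rw [Finset.insert_erase h1, Finset.insert_erase hi]

theorem crit {s : Finset ι} {i j : ι} (hi : i ∈ s) (hj : j ∈ s) (hij : i ≠ j) {u : ι → ℝ}
    (hu : ∀ k ∈ s, 0 < u k) (hmin : IsLocalMin (fun τ : ℝ => N s (dir i j u τ)) 0) :
    G s (av u) (av u i) = G s (av u) (av u j) := by
  obtain ⟨e1, e2, e3⟩ := split_set hi hj hij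
  set s' := (s.erase i).erase j with hs'
  have hi' : i ∉ s' := by simp [hs']
  have hj' : j ∉ s' := by simp [hs']
  have hij' : i ∉ insert j s' := by
    rw [Finset.mem_insert, not_or]; exact ⟨hij, hi'⟩
  have ha : ∀ k ∈ s, 0 < av u k := fun k hk => av_pos (hu k hk)
  have hs's : ∀ k ∈ s', k ∈ s := fun k hk => by
    rw [hs'] at hk
    exact Finset.mem_of_mem_erase (Finset.mem_of_mem_erase hk)
  have ha' : ∀ k ∈ s', 0 < av u k := fun k hk => ha k (hs's k hk)
  set X : ℝ → ℝ := fun τ => (Real.sqrt (u i + 1 * τ))⁻¹ with hX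
  set Y : ℝ → ℝ := fun τ => (Real.sqrt (u j + (-1) * τ))⁻¹ with hY
  have hfun : (fun τ : ℝ => N s (dir i j u τ)) =
      fun τ => S s' (av u) + R s' (av u) (Y τ) + (R s' (av u) (X τ) - R s' (av u) (X τ + Y τ)) := by
    funext τ
    rw [N, e3, S_insert hij', S_insert hj', R_insert hj']
    have hb : ∀ k ∈ s', av (dir i j u τ) k = av u k := by
      intro k hk
      rw [av, av, dir_k (ne_of_mem_of_not_mem hk hi') (ne_of_mem_of_not_mem hk hj')]
    have hbi : av (dir i j u τ) i = X τ := by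
      rw [av, dir_i hij, hX]; simp
    have hbj : av (dir i j u τ) j = Y τ := by
      rw [av, dir_j hij, hY]; simp [sub_eq_add_neg]
    rw [S_congr hb, R_congr hb, R_congr hb, R_congr hb, hbi, hbj]
  have hX0 : X 0 = av u i := by simp [hX, av]
  have hY0 : Y 0 = av u j := by simp [hY, av]
  have hxi := ha i hi
  have hyj := ha j hj
  have dX : HasDerivAt X (-(1 / 2) * (av u i) ^ 3) 0 := sqrt_inv_deriv (hu i hi) 1
  have dY : HasDerivAt Y (-(-1 / 2) * (av u j) ^ 3) 0 := sqrt_inv_deriv (hu j hj) (-1)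
  have d1 : HasDerivAt (fun τ => R s' (av u) (Y τ)) (-R2 s' (av u) (av u j) *
      (-(-1 / 2) * (av u j) ^ 3)) 0 := by
    have := R_hasDerivAt ha' hyj
    rw [← hY0] at this
    have h2 := this.comp (0 : ℝ) dY
    rw [hY0] at h2
    exact h2
  have d2 : HasDerivAt (fun τ => R s' (av u) (X τ)) (-R2 s' (av u) (av u i) *
      (-(1 / 2) * (av u i) ^ 3)) 0 := by
    have := R_hasDerivAt ha' hxi
    rw [← hX0] at this
    have h2 := this.comp (0 : ℝ) dX
    rw [hX0] at h2
    exact h2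
  have d3 : HasDerivAt (fun τ => R s' (av u) (X τ + Y τ)) (-R2 s' (av u) (av u i + av u j) *
      (-(1 / 2) * (av u i) ^ 3 + -(-1 / 2) * (av u j) ^ 3)) 0 := by
    have h0 := R_hasDerivAt ha' (add_pos hxi hyj)
    have h1 : HasDerivAt (fun τ => X τ + Y τ)
      (-(1 / 2) * (av u i) ^ 3 + -(-1 / 2) * (av u j) ^ 3) 0 := dX.fun_add dY
    have h3 : X 0 + Y 0 = av u i + av u j := by rw [hX0, hY0]
    rw [← h3] at h0
    have h2 := HasDerivAt.comp (0 : ℝ) (h₂ := R s' (av u)) (h := fun τ => X τ + Y τ) h0 h1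
    rw [h3] at h2
    exact h2
  have d := (d1.const_add (S s' (av u))).fun_add (d2.fun_sub d3)
  rw [hfun] at hmin
  have hz := hmin.hasDerivAt_eq_zero d
  rw [G_eq ha hi, G_eq ha hj, e1, e2, R2_insert hj', R2_insert hi', add_comm (av u j) (av u i)]
  linarith

theorem N_continuousOn (s : Finset ι) {K : Set (ι → ℝ)} (hK : ∀ u ∈ K, ∀ i ∈ s, 0 < u i) :
    ContinuousOn (N s) K := by
  unfold N S
  apply continuousOn_finsetSum
  intro J hJ
  rcases J.eq_empty_or_nonempty with rfl | hne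
  · simp only [Finset.sum_empty]
    exact continuousOn_const
  apply ContinuousOn.mul continuousOn_const
  apply ContinuousOn.inv₀
  · apply continuousOn_finsetSum
    intro j hj
    unfold av
    apply ContinuousOn.inv₀
    · fun_prop
    · intro u hu
      exact (Real.sqrt_pos.2 (hK u hu j (Finset.mem_powerset.1 hJ hj))).ne'
  · intro u hu
    exact (sum_pos (fun j hj => av_pos (hK u hu j (Finset.mem_powerset.1 hJ hj))) hne).ne'

/-- The two value case. -/
theorem two_value_case {s : Finset ι} (hcard : s.card ≤ 6) {a : ι → ℝ} {α β : ℝ} (hβ : 0 < β)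
    (hαβ : β ≤ α) (hex : ∃ i ∈ s, a i = β) (hall : ∀ i ∈ s, a i = α ∨ a i = β) :
    ∑ i ∈ s, ((a i)⁻¹) ^ 2 ≤ (S s a) ^ 2 := by
  have hα : 0 < α := hβ.trans_le hαβ
  set s1 := s.filter (fun i => a i ≠ β) with hs1
  set s2 := s.filter (fun i => a i = β) with hs2
  have hunion : s1 ∪ s2 = s := by
    rw [hs1, hs2, Finset.union_comm]
    exact Finset.filter_union_filter_not_eq (fun i => a i = β) s
  have hd : Disjoint s1 s2 := by
    rw [Finset.disjoint_left]
    intro i hi hi'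
    rw [hs1, Finset.mem_filter] at hi
    rw [hs2, Finset.mem_filter] at hi'
    exact hi.2 hi'.2
  have hcu : s1.card + s2.card ≤ 6 := by
    rw [← Finset.card_union_of_disjoint hd, hunion]; exact hcard
  set b : ι → ℝ := fun i => β⁻¹ * a i with hb
  have hb1 : ∀ i ∈ s1, b i = 1 + (α / β - 1) := by
    intro i hi
    rw [hs1, Finset.mem_filter] at hi
    rw [hb]
    have := (hall i hi.1).resolve_right hi.2
    simp only [this]
    field_simp
    ring
  have hb2 : ∀ i ∈ s2, b i = 1 := by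
    intro i hi
    rw [hs2, Finset.mem_filter] at hi
    rw [hb]
    simp only [hi.2]
    exact inv_mul_cancel₀ hβ.ne'
  have hx : 0 ≤ α / β - 1 := by
    rw [sub_nonneg, one_le_div hβ]
    exact hαβ
  have hkey := (two_val hcu hx).resolve_right (by
    obtain ⟨i, hi, hiβ⟩ := hex
    have : i ∈ s2 := by rw [hs2, Finset.mem_filter]; exact ⟨hi, hiβ⟩
    exact (Finset.card_pos.2 ⟨i, this⟩).ne')
  have hSb : S s b = SS s1.card s2.card (1 + (α / β - 1)) 1 := by
    rw [← S_eq_SS hd hb1 hb2, hunion]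
  have hSa : S s a = β⁻¹ * S s b := by
    rw [hb, S_smul, inv_inv, ← mul_assoc, inv_mul_cancel₀ hβ.ne', one_mul]
  have hsum : ∑ i ∈ s, ((b i)⁻¹) ^ 2 = (s1.card : ℝ) / (1 + (α / β - 1)) ^ 2 + s2.card := by
    rw [← hunion, sum_union hd, sum_congr rfl fun i hi => by rw [hb1 i hi],
      sum_congr (s₁ := s2) rfl fun i hi => by rw [hb2 i hi]]
    rw [sum_const, sum_const, nsmul_eq_mul, nsmul_eq_mul, inv_one, one_pow, mul_one, inv_pow,
      ← div_eq_mul_inv]
  have hsum2 : ∑ i ∈ s, ((a i)⁻¹) ^ 2 = (β⁻¹) ^ 2 * ∑ i ∈ s, ((b i)⁻¹) ^ 2 := by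
    rw [mul_sum]
    apply sum_congr rfl
    intro i hi
    rw [hb]
    simp only [mul_inv, inv_inv]
    field_simp
  rw [hsum2, hsum, hSa, hSb, mul_pow]
  exact mul_le_mul_of_nonneg_left hkey (by positivity)

theorem step {s : Finset ι} (hcard : s.card ≤ 6) (hs : s.Nonempty)
    (ih : ∀ i ∈ s, ∀ u : ι → ℝ, (∀ j ∈ s.erase i, 0 < u j) →
      ∑ j ∈ s.erase i, u j ≤ (N (s.erase i) u) ^ 2)
    {u0 : ι → ℝ} (hu0 : ∀ i ∈ s, 0 < u0 i) (hsum0 : ∑ i ∈ s, u0 i = 1) :
    1 ≤ (N s u0) ^ 2 := by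
  by_contra hcon
  push Not at hcon
  -- restrict to functions vanishing off `s`
  set v0 : ι → ℝ := fun k => if k ∈ s then u0 k else 0 with hv0
  have hv0s : ∀ k ∈ s, v0 k = u0 k := fun k hk => by simp [hv0, hk]
  have hNv0 : N s v0 = N s u0 := by
    rw [N, N]
    apply S_congr
    intro i hi
    rw [av, av, hv0s i hi]
  obtain ⟨i0, hi0, hmin0⟩ := Finset.exists_min_image s u0 hs
  set m := N s u0 with hm
  have hm0 : 0 ≤ m := S_nonneg fun i hi => av_pos (hu0 i hi)
  obtain ⟨δ, hδ0, hδ1, hδ2⟩ : ∃ δ : ℝ, 0 < δ ∧ δ ≤ u0 i0 ∧ m ^ 2 < 1 - δ := by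
    refine ⟨min (u0 i0) ((1 - m ^ 2) / 2), lt_min (hu0 i0 hi0) (by linarith), min_le_left _ _, ?_⟩
    have := min_le_right (u0 i0) ((1 - m ^ 2) / 2)
    linarith
  set K : Set (ι → ℝ) := {u | (∀ k, k ∉ s → u k = 0) ∧ (∀ k ∈ s, δ ≤ u k) ∧ ∑ k ∈ s, u k = 1} with hK
  have hKpos : ∀ u ∈ K, ∀ i ∈ s, 0 < u i := fun u hu i hi => hδ0.trans_le (hu.2.1 i hi)
  have hKclosed : IsClosed K := by
    have e : K = (⋂ k : ι, ⋂ (_ : k ∉ s), {u : ι → ℝ | u k = 0}) ∩
        ((⋂ k : ι, ⋂ (_ : k ∈ s), {u : ι → ℝ | δ ≤ u k}) ∩ {u | ∑ k ∈ s, u k = 1}) := by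
      ext u
      simp [hK]
    rw [e]
    refine IsClosed.inter ?_ (IsClosed.inter ?_ ?_)
    · exact isClosed_iInter fun k => isClosed_iInter fun _ =>
        isClosed_eq (continuous_apply k) continuous_const
    · exact isClosed_iInter fun k => isClosed_iInter fun _ =>
        isClosed_le continuous_const (continuous_apply k)
    · exact isClosed_eq (by fun_prop) continuous_const
  have hKsub : K ⊆ Set.univ.pi fun _ => Icc (0 : ℝ) 1 := by
    intro u hu k _
    by_cases hk : k ∈ s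
    · refine ⟨(hKpos u hu k hk).le, ?_⟩
      rw [← hu.2.2]
      exact Finset.single_le_sum (f := u) (fun i hi => (hKpos u hu i hi).le) hk
    · rw [hu.1 k hk]
      exact ⟨le_rfl, zero_le_one⟩
  have hKcomp : IsCompact K :=
    (isCompact_univ_pi fun _ => isCompact_Icc).of_isClosed_subset hKclosed hKsub
  have hv0K : v0 ∈ K := by
    refine ⟨fun k hk => by simp [hv0, hk], fun k hk => ?_, ?_⟩
    · rw [hv0s k hk]; exact hδ1.trans (hmin0 k hk)
    · rw [sum_congr rfl hv0s, hsum0]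
  obtain ⟨u, huK, humin⟩ := hKcomp.exists_isMinOn ⟨v0, hv0K⟩ (N_continuousOn s hKpos)
  have hum : N s u ≤ m := by rw [← hNv0]; exact humin hv0K
  have hupos := hKpos u huK
  have hNu0 : 0 ≤ N s u := S_nonneg fun i hi => av_pos (hupos i hi)
  have hNu : (N s u) ^ 2 ≤ m ^ 2 := by gcongr
  -- the minimiser is interior
  have hint : ∀ i ∈ s, δ < u i := by
    intro i hi
    refine lt_of_le_of_ne (huK.2.1 i hi) ?_
    intro heq
    have h1 := ih i hi u fun j hj => hupos j (Finset.mem_of_mem_erase hj)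
    have h2 : N (s.erase i) u ≤ N s u := by
      have := S_le_insert (i := i) (s := s.erase i) (a := av u) (Finset.notMem_erase i s)
        (by rw [Finset.insert_erase hi]; exact fun j hj => av_pos (hupos j hj))
      rw [Finset.insert_erase hi] at this
      exact this
    have h3 : ∑ j ∈ s.erase i, u j = 1 - δ := by
      have := Finset.add_sum_erase s u hi
      rw [huK.2.2] at this
      linarith
    have h4 : 0 ≤ N (s.erase i) u :=
      S_nonneg fun j hj => av_pos (hupos j (Finset.mem_of_mem_erase hj))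
    have h5 : (N (s.erase i) u) ^ 2 ≤ (N s u) ^ 2 := by gcongr
    linarith
  -- critical point equations
  have hcrit : ∀ i ∈ s, ∀ j ∈ s, G s (av u) (av u i) = G s (av u) (av u j) := by
    intro i hi j hj
    by_cases hij : i = j
    · rw [hij]
    apply crit hi hj hij hupos
    have hev : ∀ᶠ τ : ℝ in 𝓝 0, dir i j u τ ∈ K := by
      have hε : 0 < min (u i - δ) (u j - δ) :=
        lt_min (by linarith [hint i hi]) (by linarith [hint j hj])
      have : ∀ᶠ τ : ℝ in 𝓝 0, |τ| < min (u i - δ) (u j - δ) := by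
        have h1 : Tendsto (fun τ : ℝ => |τ|) (𝓝 0) (𝓝 |0|) := continuous_abs.tendsto 0
        rw [abs_zero] at h1
        exact h1.eventually (gt_mem_nhds hε)
      refine this.mono fun τ hτ => ?_
      have h1 : |τ| < u i - δ := hτ.trans_le (min_le_left _ _)
      have h2 : |τ| < u j - δ := hτ.trans_le (min_le_right _ _)
      rw [abs_lt] at h1 h2
      refine ⟨fun k hk => ?_, fun k hk => ?_, ?_⟩
      · rw [dir_k (ne_of_mem_of_not_mem hi hk).symm (ne_of_mem_of_not_mem hj hk).symm]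
        exact huK.1 k hk
      · by_cases hki : k = i
        · rw [hki, dir_i hij]; linarith
        by_cases hkj : k = j
        · rw [hkj, dir_j hij]; linarith
        rw [dir_k hki hkj]
        exact huK.2.1 k hk
      · have : ∑ k ∈ s, dir i j u τ k = ∑ k ∈ s, u k := by
          simp only [dir]
          rw [sum_add_distrib, ← mul_sum, sum_sub_distrib]
          simp [hi, hj]
        rw [this]
        exact huK.2.2
    refine hev.mono fun τ hτ => ?_
    have h0 : dir i j u 0 = u := by funext k; simp [dir]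
    show N s (dir i j u 0) ≤ N s (dir i j u τ)
    rw [h0]
    exact humin hτ
  -- two values
  obtain ⟨i1, hi1, hmin1⟩ := Finset.exists_min_image s (av u) hs
  obtain ⟨i2, hi2, hmax2⟩ := Finset.exists_max_image s (av u) hs
  have hapos : ∀ i ∈ s, 0 < av u i := fun i hi => av_pos (hupos i hi)
  have hall : ∀ i ∈ s, av u i = av u i2 ∨ av u i = av u i1 := by
    intro i hi
    by_contra hne
    push Not at hne
    have h1 : av u i1 < av u i := lt_of_le_of_ne (hmin1 i hi) (Ne.symm hne.2)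
    have h2 : av u i < av u i2 := lt_of_le_of_ne (hmax2 i hi) hne.1
    exact G_three hapos hs (hapos i1 hi1) h1 h2 (hcrit i1 hi1 i hi) (hcrit i hi i2 hi2)
  have := two_value_case hcard (hapos i1 hi1) (hmin1 i2 hi2) ⟨i1, hi1, rfl⟩ hall
  have h2 : ∑ i ∈ s, ((av u i)⁻¹) ^ 2 = 1 := by
    rw [← huK.2.2]
    apply sum_congr rfl
    intro i hi
    rw [av, inv_inv, Real.sq_sqrt (hupos i hi).le]
  rw [h2] at this
  have h3 : (S s (av u)) ^ 2 = (N s u) ^ 2 := rfl
  rw [h3] at this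
  linarith

theorem V : ∀ n : ℕ, n ≤ 6 → ∀ s : Finset ι, s.card = n → ∀ u : ι → ℝ, (∀ i ∈ s, 0 < u i) →
    ∑ i ∈ s, u i ≤ (N s u) ^ 2 := by
  intro n
  induction n with
  | zero =>
    intro _ s hs u _
    rw [Finset.card_eq_zero] at hs
    subst hs
    simp [N, S_empty]
  | succ n ih =>
    intro hn s hs u hu
    have hne : s.Nonempty := Finset.card_pos.1 (by omega)
    have hσ : 0 < ∑ i ∈ s, u i := sum_pos hu hne
    set σ := ∑ i ∈ s, u i with hσd
    have h1 := step (s := s) (by omega) hne (fun i hi u' hu' =>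
      ih (by omega) (s.erase i) (by rw [Finset.card_erase_of_mem hi]; omega) u' hu')
      (u0 := fun i => σ⁻¹ * u i) (fun i hi => mul_pos (inv_pos.2 hσ) (hu i hi))
      (by rw [← mul_sum, ← hσd, inv_mul_cancel₀ hσ.ne'])
    rw [N_smul s u (inv_pos.2 hσ), mul_pow, Real.sq_sqrt (inv_pos.2 hσ).le] at h1
    rw [← div_eq_inv_mul, le_div_iff₀ hσ] at h1
    linarith

theorem main {s : Finset ι} (hs : s.card ≤ 6) {a : ι → ℝ} (ha : ∀ i ∈ s, 0 < a i) :
    Real.sqrt (∑ i ∈ s, ((a i)⁻¹) ^ 2) ≤ S s a := by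
  have h := V s.card hs s rfl (fun i => ((a i)⁻¹) ^ 2) fun i hi => by
    have := ha i hi
    positivity
  have h2 : N s (fun i => ((a i)⁻¹) ^ 2) = S s a := by
    rw [N]
    apply S_congr
    intro i hi
    rw [av, Real.sqrt_sq (inv_pos.2 (ha i hi)).le, inv_inv]
  rw [h2] at h
  rw [Real.sqrt_le_left (S_nonneg ha)]
  exact h

end Pool.Agent.Q259.MaxExp
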