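import Pool.Agent.Q259.MaxExp.Alg

/-! Failure for `n ≥ 7`: all parameters equal to one. -/

open Finset

namespace Pool.Agent.Q259.MaxExp

theorem RR_one (k : ℕ) (x : ℝ) {c : ℝ} (hc : 0 < c) :
    RR 0 k x 1 c = (k.factorial : ℝ) / ∏ i ∈ range (k + 1), (c + i) := by
  induction k generalizing c with
  | zero => simp [RR]
  | succ k ih =>
    rw [RR, ih hc, ih (by linarith : (0 : ℝ) < c + 1)]
    have h1 : ∏ i ∈ range (k + 1), (c + i) = (∏ i ∈ range k, (c + 1 + i)) * c := by
      rw [prod_range_succ']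
      simp only [Nat.cast_zero, add_zero]
      congr 1
      apply prod_congr rfl
      intro i _
      push_cast
      ring
    have h2 : ∏ i ∈ range (k + 1), (c + 1 + i) = (∏ i ∈ range k, (c + 1 + i)) * (c + 1 + k) := by
      rw [prod_range_succ]
    have h3 : ∏ i ∈ range (k + 1 + 1), (c + i) =
        (∏ i ∈ range k, (c + 1 + i)) * c * (c + 1 + k) := by
      rw [prod_range_succ, h1]
      push_cast
      ring
    have hp : (∏ i ∈ range k, (c + 1 + (i : ℝ))) ≠ 0 := by
      apply prod_ne_zero_iff.2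
      intro i _
      positivity
    have hk : c + 1 + k ≠ 0 := by positivity
    rw [h1, h2, h3, Nat.factorial_succ]
    push_cast
    field_simp
    ring

theorem SS_one (n : ℕ) (x : ℝ) : SS 0 n x 1 = ∑ k ∈ range n, ((k : ℝ) + 1)⁻¹ := by
  induction n with
  | zero => simp [SS]
  | succ n ih =>
    rw [SS, ih, sum_range_succ, RR_one n x one_pos]
    congr 1
    have h1 : ∏ i ∈ range (n + 1), ((1 : ℝ) + i) = ((n + 1).factorial : ℝ) := by
      rw [← prod_range_add_one_eq_factorial]
      push_cast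
      apply prod_congr rfl
      intro i _
      ring
    rw [h1, Nat.factorial_succ]
    have : (n.factorial : ℝ) ≠ 0 := by positivity
    push_cast
    field_simp

theorem harm_nonneg (n : ℕ) : 0 ≤ ∑ k ∈ range n, ((k : ℝ) + 1)⁻¹ :=
  sum_nonneg fun k _ => by positivity

theorem harm_lt {n : ℕ} (hn : 7 ≤ n) : (∑ k ∈ range n, ((k : ℝ) + 1)⁻¹) ^ 2 < n := by
  induction n, hn using Nat.le_induction with
  | base => norm_num [sum_range_succ]
  | succ n hn ih =>
    rw [sum_range_succ]
    have h0 := harm_nonneg n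
    set h := ∑ k ∈ range n, ((k : ℝ) + 1)⁻¹ with hh
    have hn' : (7 : ℝ) ≤ n := by exact_mod_cast hn
    have h1 : h ≤ (n + 4) / 4 := by nlinarith [sq_nonneg (h - 2)]
    set q : ℝ := ((n : ℝ) + 1)⁻¹ with hq
    have hq1 : q * (n + 1) = 1 := inv_mul_cancel₀ (by positivity)
    have hq0 : 0 < q := by positivity
    have hq8 : q ≤ 1 / 8 := by
      rw [hq]
      rw [inv_le_comm₀ (by positivity) (by norm_num)]
      linarith
    push_cast
    have h2 : q * h ≤ q * ((n + 4) / 4) := mul_le_mul_of_nonneg_left h1 hq0.le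
    have h3 : q * ((n + 4) / 4) = 1 / 4 + 3 / 4 * q := by linarith
    nlinarith

/-- The inequality fails for at least seven equal parameters. -/
theorem fails {ι : Type*} [DecidableEq ι] {s : Finset ι} (hs : 7 ≤ s.card) :
    S s (fun _ => (1 : ℝ)) < Real.sqrt s.card := by
  rw [S_eq_SS_zero (x := 1) (y := 1) (fun _ _ => rfl), SS_one]
  exact Real.lt_sqrt_of_sq_lt (harm_lt hs)

end Pool.Agent.Q259.MaxExp
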